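import Pool.Agent.Lib.MP_b71113_an.FH.Main

/-! Taylor coefficients in one variable of a holomorphic function of several variables. -/

namespace Pool.Agent.Lib.MP_b71113_an.LI

open Set Filter Topology Complex Metric Function
open scoped Nat

variable {n : ℕ}

/-- the `m`-th Taylor coefficient at `p` in the variable `z_k` -/
noncomputable def co (k : Fin n) (p : ℂ) (m : ℕ) (u : (Fin n → ℂ) → ℂ) (z : Fin n → ℂ) : ℂ :=
  (m ! : ℂ)⁻¹ * iteratedDeriv m (fun ζ => u (update z k ζ)) p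

/-- the Taylor polynomial at `p` in the variable `z_k` -/
noncomputable def tay (k : Fin n) (p : ℂ) (N : ℕ) (u : (Fin n → ℂ) → ℂ) (z : Fin n → ℂ) : ℂ :=
  ∑ m ∈ Finset.range N, co k p m u z * (z k - p) ^ m

/-- the derivative in the variable `z_k` -/
noncomputable def dk (k : Fin n) (u : (Fin n → ℂ) → ℂ) (z : Fin n → ℂ) : ℂ :=
  fderiv ℂ u z (Pi.single k 1)

variable {k : Fin n} {p : ℂ} {u v : (Fin n → ℂ) → ℂ} {O : Set (Fin n → ℂ)} {z : Fin n → ℂ}

theorem co_update (m : ℕ) (ζ : ℂ) : co k p m u (update z k ζ) = co k p m u z := by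
  simp [co]

theorem diff_upd (z : Fin n → ℂ) (k : Fin n) : Differentiable ℂ fun ζ : ℂ => update z k ζ :=
  fun ζ => (hasDerivAt_update z k ζ).differentiableAt

theorem diff_upd' (k : Fin n) (p : ℂ) : Differentiable ℂ fun z : Fin n → ℂ => update z k p := by
  refine differentiable_pi.2 fun l => ?_
  simp only [update_apply]
  split_ifs <;> fun_prop

theorem isOpen_slice (hO : IsOpen O) (z : Fin n → ℂ) (k : Fin n) :
    IsOpen {ζ : ℂ | update z k ζ ∈ O} := hO.preimage (diff_upd z k).continuous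

theorem isOpen_cyl (hO : IsOpen O) (k : Fin n) (p : ℂ) :
    IsOpen {z : Fin n → ℂ | update z k p ∈ O} := hO.preimage (diff_upd' k p).continuous

theorem diff_slice (hu : DifferentiableOn ℂ u O) {s : Set ℂ} (hs : ∀ ζ ∈ s, update z k ζ ∈ O) :
    DifferentiableOn ℂ (fun ζ => u (update z k ζ)) s :=
  hu.comp (diff_upd z k).differentiableOn hs

theorem diff_dk (hO : IsOpen O) (m : ℕ) :
    ∀ {u : (Fin n → ℂ) → ℂ}, DifferentiableOn ℂ u O → DifferentiableOn ℂ ((dk k)^[m] u) O := by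
  induction m with
  | zero => exact fun h => h
  | succ m ih =>
    intro u hu
    rw [iterate_succ_apply]
    exact ih ((differentiableOn_fderiv_of_isOpen hO hu).clm_apply (differentiableOn_const _))

theorem iter_eq (hO : IsOpen O) (m : ℕ) : ∀ {u : (Fin n → ℂ) → ℂ}, DifferentiableOn ℂ u O →
    update z k p ∈ O →
      iteratedDeriv m (fun ζ => u (update z k ζ)) p = (dk k)^[m] u (update z k p) := by
  induction m with
  | zero => intro u _ _; simp
  | succ m ih =>
    intro u hu hp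
    rw [iteratedDeriv_succ', iterate_succ_apply,
      ← ih (u := dk k u) (diff_dk hO 1 hu) hp]
    refine EventuallyEq.iteratedDeriv_eq m ?_
    filter_upwards [(isOpen_slice hO z k).mem_nhds hp] with ζ hζ
    exact ((hu.differentiableAt (hO.mem_nhds hζ)).hasFDerivAt.comp_hasDerivAt ζ
      (hasDerivAt_update z k ζ)).deriv

theorem co_diff (hO : IsOpen O) (hu : DifferentiableOn ℂ u O) (m : ℕ) :
    DifferentiableOn ℂ (co k p m u) {z | update z k p ∈ O} := by
  have h0 : MapsTo (fun z : Fin n → ℂ => update z k p) {z | update z k p ∈ O} O := fun z hz => hz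
  have h := ((diff_dk (k := k) hO m hu).comp (diff_upd' k p).differentiableOn h0).const_mul
    (m ! : ℂ)⁻¹
  exact h.congr fun z (hz : update z k p ∈ O) => by simp only [co, iter_eq hO m hu hz, comp]

theorem tay_diff (hO : IsOpen O) (hu : DifferentiableOn ℂ u O) (N : ℕ) :
    DifferentiableOn ℂ (tay k p N u) {z | update z k p ∈ O} :=
  DifferentiableOn.fun_sum fun m _ => (co_diff hO hu m).mul
    (Differentiable.differentiableOn (by fun_prop))

theorem co_congr (h : u =ᶠ[𝓝 (update z k p)] v) (m : ℕ) : co k p m u z = co k p m v z := by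
  unfold co
  exact congrArg _
    (EventuallyEq.iteratedDeriv_eq m (h.comp_tendsto ((diff_upd z k).continuous.tendsto p)))

theorem co_sum {ι : Type} [Fintype ι] {w : ι → (Fin n → ℂ) → ℂ} (hO : IsOpen O)
    (hw : ∀ i, DifferentiableOn ℂ (w i) O) (h : ∀ z ∈ O, u z = ∑ i, w i z)
    (hz : update z k p ∈ O) (m : ℕ) : co k p m u z = ∑ i, co k p m (w i) z := by
  rw [co_congr (v := fun z => ∑ i, w i z) (eventually_of_mem (hO.mem_nhds hz) h)]
  unfold co
  rw [← Finset.mul_sum, iteratedDeriv_fun_sum]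
  intro i _
  have hs := isOpen_slice hO z k
  exact ((diff_slice (hw i) fun ζ h => h).contDiffOn hs).contDiffAt (hs.mem_nhds hz)

theorem tay_sum {ι : Type} [Fintype ι] {w : ι → (Fin n → ℂ) → ℂ} (hO : IsOpen O)
    (hw : ∀ i, DifferentiableOn ℂ (w i) O) (h : ∀ z ∈ O, u z = ∑ i, w i z)
    (hz : update z k p ∈ O) (N : ℕ) : tay k p N u z = ∑ i, tay k p N (w i) z := by
  unfold tay
  rw [Finset.sum_comm]
  exact Finset.sum_congr rfl fun m _ => by rw [co_sum hO hw h hz, Finset.sum_mul]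

theorem co_bound (hu : DifferentiableOn ℂ u O) {r M : ℝ} (hr : 0 < r)
    (h : ∀ ζ ∈ closedBall p r, update z k ζ ∈ O ∧ ‖u (update z k ζ)‖ ≤ M) (m : ℕ) :
    ‖co k p m u z‖ ≤ M / r ^ m := by
  have h1 := norm_iteratedDeriv_le_of_forall_mem_sphere_norm_le m hr
    ((diff_slice hu fun ζ hζ => (h ζ hζ).1).diffContOnCl_ball subset_rfl)
    fun ζ hζ => (h ζ (sphere_subset_closedBall hζ)).2
  have h2 : (0 : ℝ) < m ! := by exact_mod_cast m.factorial_pos
  rw [co, norm_mul, norm_inv, Complex.norm_natCast, inv_mul_le_iff₀ h2, ← mul_div_assoc]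
  exact h1

theorem co_hasSum (hu : DifferentiableOn ℂ u O) {r : ℝ} (h : ∀ ζ ∈ ball p r, update z k ζ ∈ O)
    (hz : z k ∈ ball p r) : HasSum (fun m => co k p m u z * (z k - p) ^ m) (u z) := by
  have := hasSum_taylorSeries_on_ball (diff_slice hu h) hz
  rw [update_eq_self] at this
  refine this.congr_fun fun m => ?_
  simp only [co, smul_eq_mul]
  ring

theorem term_bound (hu : DifferentiableOn ℂ u O) {r M L : ℝ} (hr : 0 < r)
    (h : ∀ ζ ∈ closedBall p r, update z k ζ ∈ O ∧ ‖u (update z k ζ)‖ ≤ M) (hL : ‖z k - p‖ ≤ L)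
    (m : ℕ) : ‖co k p m u z * (z k - p) ^ m‖ ≤ M * (L / r) ^ m := by
  have hM : 0 ≤ M := (norm_nonneg _).trans (h p (mem_closedBall_self hr.le)).2
  rw [norm_mul, norm_pow, div_pow, show M * (L ^ m / r ^ m) = M / r ^ m * L ^ m by ring]
  exact mul_le_mul (co_bound hu hr h m) (pow_le_pow_left₀ (norm_nonneg _) hL m) (by positivity)
    (by positivity)

theorem geom_le {x : ℝ} (hx : 1 ≤ x) (N : ℕ) : ∑ m ∈ Finset.range N, x ^ m ≤ (1 + x) ^ N := by
  induction N with
  | zero => simp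
  | succ N ih =>
    rw [Finset.sum_range_succ, pow_succ]
    have h1 : x ^ N ≤ (1 + x) ^ N := pow_le_pow_left₀ (by linarith) (by linarith) N
    have h2 : 0 ≤ (1 + x) ^ N := by positivity
    nlinarith

theorem tay_bound (hu : DifferentiableOn ℂ u O) {r M L : ℝ} (hr : 0 < r) (hrL : r ≤ L)
    (h : ∀ ζ ∈ closedBall p r, update z k ζ ∈ O ∧ ‖u (update z k ζ)‖ ≤ M) (hL : ‖z k - p‖ ≤ L)
    (N : ℕ) : ‖tay k p N u z‖ ≤ M * (1 + L / r) ^ N := by
  have hM : 0 ≤ M := (norm_nonneg _).trans (h p (mem_closedBall_self hr.le)).2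
  refine (norm_sum_le_of_le _ fun m _ => term_bound hu hr h hL m).trans ?_
  rw [← Finset.mul_sum]
  exact mul_le_mul_of_nonneg_left (geom_le ((one_le_div hr).2 hrL) N) hM

theorem rem_bound (hu : DifferentiableOn ℂ u O) {R M L : ℝ} (hL0 : 0 < L) (hR : 2 * L ≤ R)
    (h : ∀ ζ ∈ closedBall p R, update z k ζ ∈ O ∧ ‖u (update z k ζ)‖ ≤ M) (hL : ‖z k - p‖ ≤ L)
    (N : ℕ) : ‖u z - tay k p N u z‖ ≤ 2 * M * (L / R) ^ N := by
  have hR0 : 0 < R := by linarith
  have hM : 0 ≤ M := (norm_nonneg _).trans (h p (mem_closedBall_self hR0.le)).2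
  have h1 : L / R ≤ 1 / 2 := by rw [div_le_iff₀ hR0]; linarith
  have h2 := norm_sub_le_of_geometric_bound_of_hasSum (by linarith) (term_bound hu hR0 h hL)
    (co_hasSum hu (fun ζ hζ => (h ζ (ball_subset_closedBall hζ)).1)
      (by rw [mem_ball, dist_eq_norm]; linarith)) N
  rw [norm_sub_rev]
  refine h2.trans ?_
  have h3 : 0 ≤ M * (L / R) ^ N := by positivity
  rw [div_le_iff₀ (by linarith)]
  nlinarith

/-- Weierstrass' theorem in several variables -/
theorem diffAt_tsum {f : ℕ → (Fin n → ℂ) → ℂ} {a : ℕ → ℝ} {r : ℝ} (hr : 0 < r) (ha : Summable a)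
    (hf : ∀ m, DifferentiableOn ℂ (f m) (ball z r)) (hb : ∀ m, ∀ w ∈ ball z r, ‖f m w‖ ≤ a m) :
    DifferentiableAt ℂ (fun w => ∑' m, f m w) z := by
  have hsub : ∀ w ∈ ball z (r / 2), ball w (r / 2) ⊆ ball z r := fun w hw =>
    ball_subset_ball' (by rw [mem_ball] at hw; linarith)
  refine (hasFDerivAt_tsum_of_isPreconnected (u := fun m => 2 * a m / (r / 2))
    (f' := fun m w => fderiv ℂ (f m) w) ((ha.mul_left 2).div_const _) isOpen_ball
    (convex_ball z (r / 2)).isPreconnected (fun m w hw => ?_) (fun m w hw => ?_)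
    (mem_ball_self (half_pos hr)) (.of_norm_bounded ha fun m => hb m z (mem_ball_self hr))
    (mem_ball_self (half_pos hr))).differentiableAt
  · exact ((hf m).differentiableAt (isOpen_ball.mem_nhds
      (hsub w hw (mem_ball_self (half_pos hr))))).hasFDerivAt
  · exact norm_fderiv_le_of_ball (half_pos hr) ((hf m).mono (hsub w hw))
      fun y hy => hb m y (hsub w hw hy)

end Pool.Agent.Lib.MP_b71113_an.LI
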