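import Pool.Agent.Lib.MP_b71113_an.LI.Move

/-! The main estimate when some of the `h^k` are entire in `z_k`. -/

namespace Pool.Agent.Lib.MP_b71113_an.LI

open Set Filter Topology Complex Metric Function MeasureTheory

variable {n : ℕ}

theorem exists_sign (y : Fin n → ℝ) : ∃ σ : Fin n → ℤˣ, ∀ j, ((σ j : ℤ) : ℝ) * y j = |y j| :=
  ⟨fun j => if 0 ≤ y j then 1 else -1, fun j => by
    by_cases h : 0 ≤ y j
    · simp [h, abs_of_nonneg h]
    · simp [h, abs_of_neg (not_le.1 h)]⟩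

theorem sv_le (σ : Fin n → ℤˣ) (j : Fin n) (t : ℝ) : ((σ j : ℤ) : ℝ) * t ≤ |t| := by
  have := le_abs_self (sv σ j * t)
  rwa [abs_mul, abs_sv, one_mul] at this

theorem mem_Dall {W : Set (Fin n → ℝ)} {b : Fin n → ℝ} {z : Fin n → ℂ} :
    z ∈ Dall W b ↔ reV z ∈ W ∧ ∀ j, b j < |(z j).im| := by
  refine mem_iUnion.trans ⟨fun ⟨σ, h1, h2⟩ => ⟨h1, fun j => (h2 j).trans_le (sv_le σ j _)⟩,
    fun ⟨h1, h2⟩ => ?_⟩
  obtain ⟨σ, hσ⟩ := exists_sign fun j => (z j).im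
  exact ⟨σ, h1, fun j => (hσ j).symm ▸ h2 j⟩

theorem mem_Dkall {W : Set (Fin n → ℝ)} {b : Fin n → ℝ} {k : Fin n} {z : Fin n → ℂ} :
    z ∈ Dkall W b k ↔ reV z ∈ W ∧ ∀ j, j ≠ k → b j < |(z j).im| := by
  refine mem_iUnion.trans ⟨fun ⟨σ, h1, h2⟩ =>
    ⟨h1, fun j hj => (h2 j hj).trans_le (sv_le σ j _)⟩, fun ⟨h1, h2⟩ => ?_⟩
  obtain ⟨σ, hσ⟩ := exists_sign fun j => (z j).im
  exact ⟨σ, h1, fun j hj => (hσ j).symm ▸ h2 j hj⟩

/-- centres of the Taylor expansions -/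
noncomputable def ctr (a c : Fin n → ℝ) : Fin n → ℂ := pt a fun k => c k + 1

/-- compact boxes -/
def Kbox (K : Set (Fin n → ℝ)) (c lo : Fin n → ℝ) : Set (Fin n → ℂ) :=
  {z | reV z ∈ K ∧ ∀ i, lo i ≤ |(z i).im| ∧ |(z i).im| ≤ c i + 2}

/-- stability of a real set -/
def RStab (a : Fin n → ℝ) (r : ℝ) (l : List (Fin n)) (W : Set (Fin n → ℝ)) : Prop :=
  ∀ k ∈ l, ∀ x ∈ W, ∀ t, |t - a k| ≤ r → update x k t ∈ W

/-- the heights of the contours -/
def lev (c : Fin n → ℝ) (δ : ℝ) (l : List (Fin n)) (j : Fin n) : ℝ :=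
  (if j ∈ l then c j else 0) + δ

variable {W K : Set (Fin n → ℝ)} {a b c lo : Fin n → ℝ} {r δ : ℝ} {l : List (Fin n)} {k : Fin n}

theorem isCompact_Kbox (hK : IsCompact K) : IsCompact (Kbox K c lo) := by
  have e : Kbox K c lo = tube K (fun i => c i + 2) ∩ ⋂ i, {z | lo i ≤ |(z i).im|} := by
    ext z; simp only [Kbox, tube, mem_ofPred_eq, mem_inter_iff, mem_iInter, forall_and]; tauto
  rw [e]
  exact (isCompact_tube hK _).inter_right
    (isClosed_iInter fun i => isClosed_le continuous_const (by fun_prop))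

theorem disc_prop (hc : ∀ j, 0 ≤ c j) (hr : r ≤ 1 / 2) {ζ : ℂ} (h : ζ ∈ closedBall (ctr a c k) r) :
    |ζ.re - a k| ≤ r ∧ c k + 1 / 2 ≤ |ζ.im| ∧ |ζ.im| ≤ c k + 2 := by
  rw [mem_closedBall, dist_eq_norm] at h
  have h1 := (abs_re_le_norm _).trans h
  have h2 := abs_le.1 ((abs_im_le_norm _).trans h)
  simp only [ctr, sub_re, sub_im, pt_re, pt_im] at h1 h2
  rw [abs_of_nonneg (a := ζ.im) (by linarith [h2.1, hc k])]
  exact ⟨h1, by linarith [h2.1], by linarith [h2.2]⟩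

theorem stab_gen (hc : ∀ j, 0 ≤ c j) (hr : r ≤ 1 / 2) (hW : RStab a r l W)
    {P : Fin n → ℝ → Prop} (hP : ∀ j t, c j + 1 / 2 ≤ t → t ≤ c j + 2 → P j t) :
    Stab (ctr a c) r l {z | reV z ∈ W ∧ ∀ j, P j |(z j).im|} := by
  intro k hk z hz ζ hζ
  obtain ⟨h1, h2, h3⟩ := disc_prop hc hr hζ
  refine ⟨by rw [reV_update]; exact hW k hk _ hz.1 _ h1, fun j => ?_⟩
  by_cases hj : j = k
  · subst hj; simpa using hP _ _ h2 h3
  · simpa [hj] using hz.2 j

theorem stab_Dall (hc : ∀ j, 0 ≤ c j) (hr : r ≤ 1 / 2) (hW : RStab a r l W) (hb : ∀ j, b j ≤ c j) :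
    Stab (ctr a c) r l (Dall W b) := by
  rw [show Dall W b = _ from Set.ext fun _ => mem_Dall]
  exact stab_gen hc hr hW (P := fun j t => b j < t) fun j t h _ => by linarith [hb j]

theorem stab_Dkall (hc : ∀ j, 0 ≤ c j) (hr : r ≤ 1 / 2) (hW : RStab a r l W) :
    Stab (ctr a c) r l (Dkall W c k) := by
  rw [show Dkall W c k = _ from Set.ext fun _ => mem_Dkall]
  exact stab_gen hc hr hW (P := fun j t => j ≠ k → c j < t) fun j t h _ _ => by linarith

theorem stab_Kbox (hc : ∀ j, 0 ≤ c j) (hr : r ≤ 1 / 2) (hK : RStab a r l K)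
    (hlo : ∀ j, lo j ≤ c j + 1 / 2) : Stab (ctr a c) r l (Kbox K c lo) :=
  stab_gen hc hr hK (P := fun j t => lo j ≤ t ∧ t ≤ c j + 2) fun j _ h h' => ⟨(hlo j).trans h, h'⟩

theorem dist_ctr (hc : ∀ j, 0 ≤ c j) {z : Fin n → ℂ} (h1 : |reV z k - a k| ≤ 1)
    (h2 : |(z k).im| ≤ c k + 2) : ‖z k - ctr a c k‖ ≤ 4 + 2 * ∑ j, c j := by
  have h3 := norm_le_abs_re_add_abs_im (z k - ctr a c k)
  have h4 := Finset.single_le_sum (f := c) (fun i _ => hc i) (Finset.mem_univ k)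
  have h5 : |(z k).im - (c k + 1)| ≤ 2 * c k + 3 := by
    rw [abs_le] at h2 ⊢; constructor <;> linarith [h2.1, h2.2, hc k]
  simp only [ctr, sub_re, sub_im, pt_re, pt_im] at h3 ⊢
  have h6 : |(z k).re - a k| ≤ 1 := h1
  linarith

theorem pow_len {x M : ℝ} (hx : 1 ≤ x) (hM : 0 ≤ M) {i ℓ : ℕ} (h : i ≤ ℓ) (N : ℕ) :
    M * (2 * x ^ N) ^ i * x ^ N ≤ M * 2 ^ ℓ * (x ^ (ℓ + 1)) ^ N := by
  rw [← pow_mul, mul_comm (ℓ + 1), pow_mul, pow_succ, mul_pow, mul_assoc, mul_assoc, mul_assoc]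
  have h1 : 1 ≤ x ^ N := one_le_pow₀ hx
  gcongr
  norm_num

theorem pow_len' {x M : ℝ} (hx : 1 ≤ x) (hM : 0 ≤ M) {i ℓ : ℕ} (h : i ≤ ℓ) (N : ℕ) :
    M * (2 * x ^ N) ^ i ≤ M * 2 ^ ℓ * (x ^ (ℓ + 1)) ^ N :=
  (le_mul_of_one_le_right (by positivity) (one_le_pow₀ hx)).trans (pow_len hx hM h N)

theorem isOpen_Dall (hW : IsOpen W) : IsOpen (Dall W b) :=
  isOpen_iUnion fun σ => isOpen_Dsig hW b σ

theorem isOpen_Dkall (hW : IsOpen W) : IsOpen (Dkall W b k) :=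
  isOpen_iUnion fun σ => isOpen_Dksig hW b k σ

theorem exists_bd {u : (Fin n → ℂ) → ℂ} {O Z : Set (Fin n → ℂ)} (hZ : IsCompact Z) (h : Z ⊆ O)
    (hu : DifferentiableOn ℂ u O) : ∃ M, 0 ≤ M ∧ ∀ z ∈ Z, ‖u z‖ ≤ M := by
  obtain ⟨M, hM⟩ := hZ.exists_bound_of_continuousOn (hu.continuousOn.mono h)
  exact ⟨|M|, abs_nonneg _, fun z hz => (hM z hz).trans (le_abs_self M)⟩

variable {χ : (Fin n → ℝ) → ℝ} {Φ f : (Fin n → ℂ) → ℂ} {O : Set (Fin n → ℂ)} {θ : ℝ} {ℓ : ℕ}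

/-- the growth rate -/
noncomputable def rate (c : Fin n → ℝ) (r : ℝ) (ℓ : ℕ) : ℝ := (1 + (4 + 2 * ∑ j, c j) / r) ^ (ℓ + 1)

theorem climb (hχ : ContDiff ℝ 1 χ) (hcs : HasCompactSupport χ) (hW : IsOpen W) (hK : IsCompact K)
    (hKW : K ⊆ W) (hχK : tsupport χ ⊆ K) (hc : ∀ j, 0 ≤ c j) (hr0 : 0 < r) (hr : r ≤ 1 / 2)
    (hδ0 : 0 < δ) (hδ : δ ≤ 1 / 2) (hf : DifferentiableOn ℂ f (Dall W 0)) (hO : IsOpen O)
    (hΦ : DifferentiableOn ℂ Φ O) (hsub : tube K (fun j => c j + δ) ⊆ O) (hθ : 0 ≤ θ)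
    (h : rate c r ℓ * θ ≤ 1 / 2) (hl : l.Pairwise (· > ·)) (hlen : l.length ≤ ℓ)
    (hsW : RStab a r l W) (hsK : RStab a r l K) (ha : ∀ k ∈ l, ∀ x ∈ K, |x k - a k| ≤ 1)
    (hA : ∀ k ∈ l, ∀ x v, (∀ j, j ≠ k → v j = 0) → fderiv ℝ χ x v ≠ 0 → ∀ w : Fin n → ℝ,
      (∀ j, |w j| ≤ (if j ∈ l ∧ j ≤ k then c j else 0) + δ) → ‖Φ (pt x w)‖ ≤ θ) :
    Sm fun N => Q χ Φ (fun N => op (ctr a c) N l f) (lev c δ l) N -
      Q χ Φ (fun _ => f) (fun _ => δ) N := by
  induction l with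
  | nil =>
    refine ⟨0, fun N => ?_⟩
    rw [show lev c δ [] = fun _ => δ by funext j; simp [lev]]
    simp [op]
  | cons k l ih =>
    have hc0 : 0 ≤ ∑ j, c j := Finset.sum_nonneg fun j _ => hc j
    have hrL : r ≤ 4 + 2 * ∑ j, c j := by linarith
    have hx : 1 ≤ 1 + (4 + 2 * ∑ j, c j) / r := le_add_of_nonneg_right (by positivity)
    have hl' := List.pairwise_cons.1 hl
    have hkl : k ∉ l := fun h => lt_irrefl _ (hl'.1 k h)
    have hlen' : l.length ≤ ℓ := by simp at hlen; omega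
    have hm : ∀ j ∈ l, j ∈ k :: l := fun j hj => List.mem_cons_of_mem _ hj
    have hk : k ∈ k :: l := List.mem_cons_self
    have h0 := ih hl'.2 hlen' (fun j hj => hsW j (hm j hj)) (fun j hj => hsK j (hm j hj))
      (fun j hj => ha j (hm j hj)) fun j hj x v h1 h2 w hw => hA j (hm j hj) x v h1 h2 w fun i =>
        (hw i).trans (by
          have := hc i
          split_ifs with h3 h4
          · rfl
          · exact absurd ⟨hm i h3.1, h3.2⟩ h4
          · linarith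
          · rfl)
    have hsD := stab_Dall hc hr hsW (b := 0) hc
    have hsB := stab_Kbox hc hr hsK (lo := fun _ => δ) fun j => by linarith [hc j]
    have hBD : Kbox K c (fun _ => δ) ⊆ Dall W 0 := fun z hz =>
      mem_Dall.2 ⟨hKW hz.1, fun j => hδ0.trans_le (hz.2 j).1⟩
    obtain ⟨M, hM0, hM⟩ := exists_bd (isCompact_Kbox hK) hBD hf
    have hd : ∀ N, DifferentiableOn ℂ (op (ctr a c) N l f) (Dall W 0) := fun N =>
      op_diff hr0 (isOpen_Dall hW) hf hsD.tail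
    have hb := fun N => op_bound (N := N) hr0 hrL (isOpen_Dall hW) hf hBD hM hsD.tail hsB.tail
      fun j hj z hz => dist_ctr hc (ha j (hm j hj) _ hz.1) (hz.2 j).2
    have hlev : ∀ (l' : List (Fin n)) j, δ ≤ lev c δ l' j ∧ lev c δ l' j ≤ c j + δ := fun l' j => by
      have := hc j
      unfold lev; split_ifs <;> constructor <;> linarith
    have hlev0 : ∀ (l' : List (Fin n)) j, 0 ≤ lev c δ l' j := fun l' j => hδ0.le.trans (hlev l' j).1
    have hsub' : tube (tsupport χ) (lev c δ (k :: l)) ⊆ O :=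
      (tube_mono hχK fun j => (hlev _ j).2).trans hsub
    have hA' : ∀ w ∈ tube {x | ∃ v, (∀ j, j ≠ k → v j = 0) ∧ fderiv ℝ χ x v ≠ 0}
        (lev c δ (k :: l)), ‖Φ w‖ ≤ θ := by
      rintro w ⟨⟨v, h1, h2⟩, h3⟩
      rw [← pt_reV w]
      refine hA k hk _ v h1 h2 _ fun j => (h3 j).trans (le_of_eq ?_)
      unfold lev
      refine congrArg (· + δ) (if_congr ⟨fun h => ⟨h, ?_⟩, fun h => h.1⟩ rfl rfl)
      rcases List.mem_cons.1 h with rfl | h
      · rfl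
      · exact (hl'.1 j h).le
    have h1 := sm_move hχ hcs (isOpen_Dall hW) hO hd hΦ hBD
      (fun N z hz => (hb N z hz).trans (pow_len' hx hM0 hlen' N)) (by positivity) hθ h hsub' hA'
      (hlev0 l) (fun j => by
        have := hc j
        unfold lev
        split_ifs with h3 h4
        · rfl
        · exact absurd (hm j h3) h4
        · linarith
        · rfl)
      (fun x v hv h => ⟨v, fun j hj => hv j (by simp [lev, hj]), h⟩)
      fun x hx w hw => ⟨by simpa using hχK hx, fun j => by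
        rw [pt_im]; exact ⟨(hlev l j).1.trans (hw j).1, by linarith [(hw j).2, (hlev (k :: l) j).2]⟩⟩
    have hp : ctr a c k ∈ closedBall (ctr a c k) r := mem_closedBall_self hr0.le
    have h2 := sm_flip (k := k) hχ hcs (isOpen_cyl (isOpen_Dall hW) k (ctr a c k)) hO
      (fun N => tay_diff (isOpen_Dall hW) (hd N) N) hΦ
      (K := {z | ‖z k - ctr a c k‖ ≤ 4 + 2 * ∑ j, c j ∧
        ∀ ζ ∈ closedBall (ctr a c k) r, update z k ζ ∈ Kbox K c fun _ => δ})
      (fun z hz => hBD (hz.2 _ hp))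
      (fun N z hz => (tay_bound (hd N) hr0 hrL (fun ζ hζ => ⟨hBD (hz.2 ζ hζ), hb N _ (hz.2 ζ hζ)⟩)
        hz.1 N).trans (pow_len hx hM0 hlen' N)) (by positivity) hθ h hsub' hA' (hlev0 _)
      (fun x v hv h => ⟨v, hv, h⟩) fun x hx w h3 h4 => by
        refine ⟨dist_ctr hc (by simpa using ha k hk x (hχK hx))
          (by rw [pt_im]; linarith [(hlev (k :: l) k).2]), fun ζ hζ => ?_⟩
        obtain ⟨h5, h6, h7⟩ := disc_prop hc hr hζ
        refine ⟨by rw [reV_update, reV_pt]; exact hsK k hk x (hχK hx) _ h5, fun j => ?_⟩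
        by_cases hj : j = k
        · subst hj; rw [update_self]; exact ⟨by linarith [hc j], h7⟩
        · rw [update_of_ne hj, pt_im, h4 j hj]
          exact ⟨(hlev _ j).1, by linarith [(hlev (k :: l) j).2]⟩
    have hT : ∀ N, DifferentiableOn ℂ (tay k (ctr a c k) N (op (ctr a c) N l f)) (Dall W 0) :=
      fun N => (tay_diff (isOpen_Dall hW) (hd N) N).mono fun z hz => hsD k hk z hz _ hp
    have h3 := Q_sum (V := Dall W 0) (u := fun N => op (ctr a c) N l f)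
      (w := ![fun N => op (ctr a c) N (k :: l) f,
        fun N => tay k (ctr a c k) N (op (ctr a c) N l f)]) hχ hcs
      (Fin.forall_fin_two.2 ⟨fun N => (hd N).sub (hT N), hT⟩) hΦ hsub' (hlev0 _)
      (fun x hx w hw => mem_Dall.2 ⟨by simpa using hKW (hχK hx), fun j => by
        rw [pt_im, hw j]; exact hδ0.trans_le (hlev _ j).1⟩) fun N z _ => by simp [op]
    refine ((h0.add h1).add (h2.const_mul (-1))).congr fun N => ?_
    rw [h3 N]
    simp only [Fin.sum_univ_two, Matrix.cons_val_zero, Matrix.cons_val_one]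
    ring

theorem est {F : (Fin n → ℤˣ) → (Fin n → ℂ) → ℂ} {E : Fin n → (Fin n → ℂ) → ℂ}
    (hχ : ContDiff ℝ 1 χ) (hcs : HasCompactSupport χ) (hW : IsOpen W) (hK : IsCompact K)
    (hKW : K ⊆ W) (hχK : tsupport χ ⊆ K) (hc : ∀ j, 0 ≤ c j) (hr0 : 0 < r) (hr : r ≤ 1 / 2)
    (hδ0 : 0 < δ) (hδ : δ ≤ 1 / 2) (hf : DifferentiableOn ℂ f (Dall W 0))
    (hF : ∀ σ, ContinuousOn (F σ) (closure (Dsig W 0 σ)) ∧ EqOn (F σ) f (Dsig W 0 σ))
    (hE : ∀ j, DifferentiableOn ℂ (E j) (Dkall W c j))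
    (hE' : ∀ j ∈ l, DifferentiableOn ℂ (E j) {z | update z j (ctr a c j) ∈ Dkall W c j})
    (hfE : ∀ z ∈ Dall W c, f z = ∑ j, E j z) (hO : IsOpen O)
    (hΦ : DifferentiableOn ℂ Φ O) (hsub : tube K (fun j => c j + δ) ⊆ O) (hθ : 0 ≤ θ)
    (h : rate c r l.length * θ ≤ 1 / 2) (hl : l.Pairwise (· > ·))
    (hsW : RStab a r l W) (hsK : RStab a r l K) (ha : ∀ k ∈ l, ∀ x ∈ K, |x k - a k| ≤ 1)
    (hA : ∀ k ∈ l, ∀ x v, (∀ j, j ≠ k → v j = 0) → fderiv ℝ χ x v ≠ 0 → ∀ w : Fin n → ℝ,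
      (∀ j, |w j| ≤ (if j ∈ l ∧ j ≤ k then c j else 0) + δ) → ‖Φ (pt x w)‖ ≤ θ)
    (hA' : ∀ w ∈ tube {x | ∃ v, (∀ j ∈ l, v j = 0) ∧ fderiv ℝ χ x v ≠ 0} fun j => c j + δ,
      ‖Φ w‖ ≤ θ) (hA'' : ∀ w ∈ tube {x | fderiv ℝ χ x ≠ 0} fun _ => δ, ‖Φ w‖ ≤ 1 / 2) :
    Sm fun N => ∫ x, (χ x : ℂ) * (gfun F x * Φ (ofR x) ^ N) := by
  have hc0 : 0 ≤ ∑ j, c j := Finset.sum_nonneg fun j _ => hc j
  have hrL : r ≤ 4 + 2 * ∑ j, c j := by linarith
  have hx : 1 ≤ 1 + (4 + 2 * ∑ j, c j) / r := le_add_of_nonneg_right (by positivity)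
  have hΓ : 0 ≤ (1 + (4 + 2 * ∑ j, c j) / r) ^ (l.length + 1) := by positivity
  have hsub' : tube (tsupport χ) (fun j => c j + δ) ⊆ O :=
    (tube_mono hχK fun j => le_rfl).trans hsub
  have hy : ∀ j, 0 ≤ c j + δ := fun j => by linarith [hc j]
  have h0 := sm_start hχ hcs hW (hχK.trans hKW) hf hF hO hΦ (y := fun _ => δ)
    ((tube_mono Subset.rfl fun j => by linarith [hc j]).trans hsub') (fun _ => hδ0) hA''
  have h1 := climb hχ hcs hW hK hKW hχK hc hr0 hr hδ0 hδ hf hO hΦ hsub hθ h hl le_rfl hsW hsK ha hA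
  have hsD := stab_Dall hc hr hsW (b := 0) hc
  have hsB := stab_Kbox hc hr hsK (lo := fun _ => δ) fun j => by linarith [hc j]
  have hBD : Kbox K c (fun _ => δ) ⊆ Dall W 0 := fun z hz =>
    mem_Dall.2 ⟨hKW hz.1, fun j => hδ0.trans_le (hz.2 j).1⟩
  have hL : ∀ lo, ∀ k ∈ l, ∀ z ∈ Kbox K c lo, ‖z k - ctr a c k‖ ≤ 4 + 2 * ∑ j, c j :=
    fun lo j hj z hz => dist_ctr hc (ha j hj _ hz.1) (hz.2 j).2
  obtain ⟨M, hM0, hM⟩ := exists_bd (isCompact_Kbox hK) hBD hf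
  have hlev : ∀ j, δ ≤ lev c δ l j ∧ lev c δ l j ≤ c j + δ := fun j => by
    have := hc j
    unfold lev; split_ifs <;> constructor <;> linarith
  have h2 := sm_move hχ hcs (isOpen_Dall hW) hO
    (fun N => op_diff (N := N) hr0 (isOpen_Dall hW) hf hsD) hΦ hBD
    (fun N z hz => (op_bound hr0 hrL (isOpen_Dall hW) hf hBD hM hsD hsB (hL _) z hz).trans
      (pow_len' hx hM0 le_rfl N)) hΓ hθ h hsub' hA' (y := lev c δ l)
    (fun j => hδ0.le.trans (hlev j).1) (fun j => (hlev j).2)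
    (fun x v hv h => ⟨v, fun j hj => hv j (by simp [lev, hj]), h⟩)
    fun x hx w hw => ⟨by simpa using hχK hx, fun j => by
      rw [pt_im]; exact ⟨(hlev j).1.trans (hw j).1, by linarith [(hw j).2]⟩⟩
  have hDD : ∀ j, Dall W c ⊆ Dkall W c j := fun j z hz =>
    mem_Dkall.2 ⟨(mem_Dall.1 hz).1, fun i _ => (mem_Dall.1 hz).2 i⟩
  have hsC := stab_Dall hc hr hsW (b := c) fun _ => le_rfl
  have h3 := Q_sum (V := Dall W c) (u := fun N => op (ctr a c) N l f)
    (w := fun j N => op (ctr a c) N l (E j)) hχ hcs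
    (fun j N => op_diff hr0 (isOpen_Dall hW) ((hE j).mono (hDD j)) hsC) hΦ hsub' hy
    (fun x hx w hw => mem_Dall.2 ⟨by simpa using hKW (hχK hx), fun j => by
      rw [pt_im, hw j]; linarith⟩)
    fun N => op_sum hr0 (isOpen_Dall hW) (fun j => (hE j).mono (hDD j)) hfE hsC
  have h4 : ∀ j, Sm (Q χ Φ (fun N => op (ctr a c) N l (E j)) fun j => c j + δ) := fun j => by
    set lo : Fin n → ℝ := update (fun i => c i + δ) j 0 with hlo
    have hlo1 : ∀ i, lo i ≤ c i + δ := fun i => by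
      rw [hlo, update_apply]; split_ifs; exacts [hy i, le_rfl]
    have hsB' := stab_Kbox hc hr hsK (lo := lo) fun i => by linarith [hlo1 i]
    have hBD' : Kbox K c lo ⊆ Dkall W c j := fun z hz => mem_Dkall.2 ⟨hKW hz.1, fun i hi => by
      have := (hz.2 i).1
      rw [hlo, update_of_ne hi] at this
      linarith⟩
    have hin : ∀ x ∈ tsupport χ, ∀ w : Fin n → ℝ, |w j| ≤ c j + δ →
        (∀ i, i ≠ j → |w i| = c i + δ) → pt x w ∈ Kbox K c lo := fun x hx w h5 h6 =>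
      ⟨by simpa using hχK hx, fun i => by
        rw [pt_im]
        by_cases hi : i = j
        · subst hi; exact ⟨by simp [hlo], by linarith⟩
        · rw [h6 i hi]; exact ⟨hlo1 i, by linarith⟩⟩
    by_cases hj : j ∈ l
    · have hp : ctr a c j ∈ closedBall (ctr a c j) r := mem_closedBall_self hr0.le
      obtain ⟨B, hB0, hB⟩ := exists_bd (isCompact_tube hcs _) hsub' hΦ
      set L := 4 + 2 * ∑ j, c j with hLd
      set Γ := (1 + L / r) ^ (l.length + 1) with hΓd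
      set R := 2 * L * (Γ * B + 1) with hR
      have hL0 : 0 < L := by positivity
      have hcm : ∀ {k : Fin n} (z : Fin n → ℂ) (ζ : ℂ), k ≠ j →
          update (update z k ζ) j (ctr a c j) = update (update z j (ctr a c j)) k ζ :=
        fun z ζ hk => update_comm hk ζ _ z
      set K' := {z : Fin n → ℂ | z j ∈ closedBall (ctr a c j) R ∧
        update z j (ctr a c j) ∈ Kbox K c lo} with hK'
      have hK'c : IsCompact K' := by
        have hcu : Continuous fun q : (Fin n → ℂ) × ℂ => update q.1 j q.2 := by fun_prop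
        have h5 : IsClosed {z : Fin n → ℂ | z j ∈ closedBall (ctr a c j) R} :=
          Metric.isClosed_closedBall.preimage (continuous_apply j)
        have h6 := (isCompact_Kbox (c := c) (lo := lo) hK).isClosed.preimage
          (diff_upd' j (ctr a c j)).continuous
        exact (((isCompact_Kbox (c := c) (lo := lo) hK).prod
          (isCompact_closedBall (ctr a c j) R)).image hcu).of_isClosed_subset (h5.inter h6)
          fun z hz => ⟨(update z j (ctr a c j), z j), ⟨hz.2, hz.1⟩, by simp⟩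
      have hK'O : K' ⊆ {z | update z j (ctr a c j) ∈ Dkall W c j} := fun z hz => hBD' hz.2
      obtain ⟨M', hM'0, hM'⟩ := exists_bd hK'c hK'O (hE' j hj)
      refine sm_tiny (M := 2 * M' * 2 ^ l.length) (Γ := L / R * Γ) hχ hcs (fun N z hz => ?_)
        (by positivity) hB0 ?_ hB hy fun x hx w hw => hin x hx w (hw j).le fun i _ => hw i
      · refine (op_small (N := N) (R := R) hr0 hrL
          (le_mul_of_one_le_right (by positivity) (le_add_of_nonneg_left (by positivity)))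
          (isOpen_cyl (isOpen_Dkall hW) j _) (hE' j hj) (fun z hz => hBD' (hsB' j hj z hz _ hp))
          hK'O hM'
          (fun z hz ζ hζ => ⟨by simpa using hζ, by simpa using hsB' j hj z hz _ hp⟩)
          (fun k hk z hz ζ hζ => ?_) hsB' (hL _) (fun k hk hkj z hz => ⟨?_, fun ζ hζ => ⟨?_, ?_⟩⟩)
          (hl.imp fun h => h.ne') hj z hz).trans ?_
        · by_cases hkj : k = j
          · subst hkj; simpa using hz
          · rw [mem_ofPred_eq, hcm z ζ hkj]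
            exact stab_Dkall hc hr hsW k hk _ hz ζ hζ
        · simpa [hkj] using hL _ k hk _ hz.2
        · simpa [Ne.symm hkj] using hz.1
        · rw [hcm z ζ hkj]
          exact hsB' k hk _ hz.2 ζ hζ
        · refine (pow_len' hx (by positivity) le_rfl N).trans (le_of_eq ?_)
          rw [mul_pow (L / R)]
          ring
      · rw [hR, div_mul_eq_mul_div, div_mul_eq_mul_div, div_le_iff₀ (by positivity)]
        nlinarith
    · obtain ⟨M', hM'0, hM'⟩ := exists_bd (isCompact_Kbox hK) hBD' (hE j)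
      have hsD' := stab_Dkall hc hr hsW (k := j)
      exact sm_flip (k := j) hχ hcs (isOpen_Dkall hW) hO
        (fun N => op_diff (N := N) hr0 (isOpen_Dkall hW) (hE j) hsD') hΦ hBD'
        (fun N z hz => (op_bound hr0 hrL (isOpen_Dkall hW) (hE j) hBD' hM' hsD' hsB' (hL _) z
          hz).trans (pow_len' hx hM'0 le_rfl N)) hΓ hθ h hsub' hA' hy
        (fun x v hv h => ⟨v, fun i hi => hv i fun e => hj (e ▸ hi), h⟩) hin
  refine ((((Sm.sum Finset.univ h4).add (h2.const_mul (-1))).add (h1.const_mul (-1))).add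
    (h0.const_mul (-1))).congr fun N => ?_
  rw [← h3 N]
  ring

end Pool.Agent.Lib.MP_b71113_an.LI
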