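import Pool.Agent.Lib.MP_b71113_an.LI.Main

/-! Consequences for `U(Ω,c)`. -/

namespace Pool.Agent.Lib.MP_b71113_an.LI

open Set Filter Topology Complex Metric Function
open scoped Real

variable {n : ℕ} {Ω : Set (Fin n → ℝ)} {S : Finset (Fin n)} {c : Fin n → ℝ}

theorem lower_line (hΩ : IsOpen Ω) (hΩc : IsPreconnected Ω) (hc : ∀ j, 0 ≤ c j)
    (hS : ∀ k ∈ S, ∃ x₀ : Fin n → ℝ, ∀ t, update x₀ k t ∈ Ω) {Ω₁ : Set (Fin n → ℝ)}
    (hΩ₁ : IsOpen Ω₁) (hs : Ω₁ ⊆ Ω) :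
    Ω₁ \ closure (interior (hullSet Ω₁ fun j => if j ∈ S then 0 else c j)) ⊆ vanishingSet Ω c := by
  set H := hullSet Ω₁ fun j => if j ∈ S then 0 else c j
  refine subset_sUnion_of_mem ⟨hΩ₁.sdiff isClosed_closure, sdiff_subset.trans hs,
    fun f F h x hx => by_contra fun hg => ?_⟩
  have h1 : ∀ᶠ y in 𝓝 x, gfun F y ≠ 0 :=
    ((continuousOn_gfun h).continuousAt (hΩ.mem_nhds (hs hx.1))).eventually_ne hg
  refine hx.2 (subset_closure (mem_interior_iff_mem_nhds.2 ?_))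
  filter_upwards [h1, hΩ₁.mem_nhds hx.1] with y hy hyΩ
  by_contra hn
  obtain ⟨φ, K, M, h1, h2, h3, h4, h5, h6⟩ := sep_of_not_hull hΩ₁ hyΩ hn
  refine hy (vanish_line hΩ hΩc hc hS h hΩ₁ hs hyΩ h1 h2 h3 h4 (fun w hw e => h5 w ⟨hw.1, ?_⟩) h6)
  intro j
  dsimp only
  split_ifs with hj
  · simp [e j hj]
  · exact hw.2 j

theorem all_line (hΩ : IsOpen Ω) (hΩc : IsPreconnected Ω) (hc : ∀ j, 0 ≤ c j) {k₀ : Fin n}
    (hS : ∀ k, k ≠ k₀ → ∃ x₀ : Fin n → ℝ, ∀ t, update x₀ k t ∈ Ω) : vanishingSet Ω c = Ω := by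
  refine (vanishingSet_subset Ω c).antisymm
    (subset_sUnion_of_mem ⟨hΩ, Subset.rfl, fun f F h a ha => ?_⟩)
  obtain ⟨ρ, hρ, hb⟩ := Metric.isOpen_iff.1 hΩ a ha
  refine vanish_line (S := Finset.univ.erase k₀) hΩ hΩc hc
    (fun k hk => hS k (Finset.mem_erase.1 hk).1) h isOpen_ball hb (mem_ball_self hρ)
    (φ := fun z => exp (cos ((π / ρ : ℝ) * (z k₀ - a k₀)))) (by fun_prop)
    (isCompact_closedBall a (ρ / 2)) (closedBall_subset_ball (half_lt_self hρ)) zero_le_one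
    (fun w hw e => ?_) (by simp [ofR, norm_exp])
  rw [norm_exp, Real.exp_le_one_iff]
  refine re_cos_nonpos hρ (not_lt.1 fun hlt => hw.1.2 ?_)
    ((dist_le_pi_dist (reV w) a k₀).trans (mem_ball.1 hw.1.1).le)
  refine (dist_pi_le_iff (by positivity)).2 fun j => ?_
  by_cases hj : j = k₀
  · subst hj; exact hlt.le
  · simp [reV, e j (Finset.mem_erase.2 ⟨hj, Finset.mem_univ j⟩), (half_pos hρ).le]

end Pool.Agent.Lib.MP_b71113_an.LI
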