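import Pool.Agent.Lib.MP_b71113_an.LI.Coef

/-! A Hartogs lemma: being entire in `z_k` propagates through a connected domain. -/

namespace Pool.Agent.Lib.MP_b71113_an.LI

open Set Filter Topology Complex Metric Function
open scoped Real

variable {n : ℕ}

/-- super-geometric decay, uniformly on `Z` -/
def Dec (φ : ℕ → (Fin n → ℂ) → ℂ) (Z : Set (Fin n → ℂ)) : Prop :=
  ∀ R : ℝ, 0 < R → ∃ M : ℝ, ∀ m, ∀ w ∈ Z, ‖φ m w‖ ≤ M / R ^ m

theorem Dec.prop {φ : ℕ → (Fin n → ℂ) → ℂ} {G Z T : Set (Fin n → ℂ)} {d H A r : ℝ} (hd : 0 < d)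
    (hH : 0 < H) (hr : 0 < r) (hφ : ∀ m, DifferentiableOn ℂ (φ m) G)
    (hA : ∀ m, ∀ w ∈ G, ‖φ m w‖ ≤ A / r ^ m) (hZ : Dec φ Z)
    (hT : ∀ w ∈ T, ∃ b v : Fin n → ℂ, ‖v‖ ≤ 1 ∧ w = b + (I * (H / 2 : ℝ) - I * H) • v ∧
      closedBall b (d + H) ⊆ G ∧ ∀ t : ℝ, |t| ≤ d → b + (t : ℂ) • v ∈ Z) : Dec φ T := by
  intro R hR
  have hsh : 0 < Real.sinh (π / (2 * d) * H) := Real.sinh_pos_iff.2 (by positivity)
  set ω := π / (4 * d) / Real.sinh (π / (2 * d) * H) * (H / 2 - 0) with hω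
  have hω0 : 0 < ω := by rw [hω, sub_zero]; positivity
  set μ := R / (r * ω) with hμ
  have hμ0 : 0 ≤ μ := by positivity
  have hRr : R ≤ r * Real.exp (μ * ω) := by
    have h1 : μ * ω = R / r := by rw [hμ]; field_simp
    have h2 := Real.add_one_le_exp (R / r)
    rw [h1, ← div_le_iff₀' hr]
    linarith
  obtain ⟨M, hM⟩ := hZ (r * Real.exp μ) (by positivity)
  refine ⟨|A| + |M|, fun m w hw => ?_⟩
  obtain ⟨b, v, hv, rfl, hb, hZ'⟩ := hT w hw
  have hin : ∀ s ∈ Icc (-d) d ×ℂ Icc 0 H, b + (s - I * H) • v ∈ G := fun s hs => by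
    refine hb ?_
    rw [mem_closedBall, dist_eq_norm, add_sub_cancel_left, norm_smul]
    have h1 := norm_le_abs_re_add_abs_im (s - I * H)
    have h2 : |(s - I * H).re| ≤ d := by simpa using abs_le.2 hs.1
    have h3 : |(s - I * H).im| ≤ H := by
      have := hs.2
      simp only [mem_preimage, mem_Icc] at this
      rw [abs_le]; simp; constructor <;> linarith [this.1, this.2]
    nlinarith [norm_nonneg (s - I * H), norm_nonneg v]
  have key := two_const (D := fun s => φ m (b + (s - I * H) • v)) (A := (|A| + |M|) / r ^ m)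
    (γ := μ * m) (s := I * (H / 2 : ℝ)) hd le_rfl hH (by positivity)
    ((hφ m).comp (Differentiable.differentiableOn (by fun_prop)) hin)
    (fun s hs => (hA m _ (hin s hs)).trans (by
      gcongr; linarith [le_abs_self A, abs_nonneg M]))
    (fun s hs h => ?_) (by simp; positivity) (by simp; constructor <;> linarith)
  · refine key.trans ?_
    have h1 : (I * (H / 2 : ℝ)).im = H / 2 := by simp
    rw [h1, ← hω, Real.exp_neg, ← div_eq_mul_inv, div_div, show μ * m * ω = m * (μ * ω) by ring,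
      Real.exp_nat_mul, ← mul_pow]
    gcongr
  · have h1 : s - I * H = (s.re : ℂ) := by apply Complex.ext <;> simp [h]
    rw [h1]
    refine (hM m _ (hZ' _ (abs_le.2 hs.1))).trans ?_
    rw [Real.exp_neg, ← div_eq_mul_inv, div_div, mul_comm μ, Real.exp_nat_mul, ← mul_pow]
    gcongr
    linarith [le_abs_self M, abs_nonneg A]

variable {k : Fin n} {p : ℂ} {u : (Fin n → ℂ) → ℂ} {O : Set (Fin n → ℂ)} {z : Fin n → ℂ}

theorem dec_of_slices {Z : Set (Fin n → ℂ)} (hu : DifferentiableOn ℂ u O) (hZ : IsCompact Z)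
    (h : ∀ w ∈ Z, ∀ ζ, update w k ζ ∈ O) : Dec (fun m => co k p m u) Z := by
  intro R hR
  have hc : Continuous fun q : (Fin n → ℂ) × ℂ => update q.1 k q.2 := by fun_prop
  obtain ⟨M, hM⟩ := ((hZ.prod (isCompact_closedBall p R)).image hc).exists_bound_of_continuousOn
    (hu.continuousOn.mono (by rintro _ ⟨q, hq, rfl⟩; exact h _ hq.1 _))
  exact ⟨M, fun m w hw => co_bound hu hR (fun ζ hζ => ⟨h w hw ζ, hM _ ⟨(w, ζ), ⟨hw, hζ⟩, rfl⟩⟩) m⟩

/-- the cylinder over a polydisc -/
def cyl (k : Fin n) (z : Fin n → ℂ) (r : ℝ) : Set (Fin n → ℂ) := {w | update w k (z k) ∈ ball z r}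

theorem mem_cyl {r : ℝ} (hr : 0 < r) {w : Fin n → ℂ} :
    w ∈ cyl k z r ↔ ∀ j, j ≠ k → dist (w j) (z j) < r := by
  simp only [cyl, mem_ofPred_eq, mem_ball, dist_pi_lt_iff hr]
  refine ⟨fun h j hj => by simpa [hj] using h j, fun h j => ?_⟩
  by_cases hj : j = k
  · subst hj; simpa using hr
  · simpa [hj] using h j hj

theorem ball_sub_cyl {r : ℝ} (hr : 0 < r) : ball z r ⊆ cyl k z r := fun _ hw =>
  (mem_cyl hr).2 fun j _ => (dist_le_pi_dist _ _ j).trans_lt hw

theorem upd_mem_cyl {r : ℝ} {w : Fin n → ℂ} (hw : w ∈ cyl k z r) (ζ : ℂ) :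
    update w k ζ ∈ cyl k z r := by simpa [cyl] using hw

theorem upd_mem_closedBall {r : ℝ} (hr : 0 < r) {w : Fin n → ℂ} (hw : w ∈ cyl k z r) {ζ : ℂ}
    (hζ : ζ ∈ closedBall (z k) r) : update w k ζ ∈ closedBall z r := by
  refine (dist_pi_le_iff hr.le).2 fun j => ?_
  by_cases hj : j = k
  · subst hj; simpa using hζ
  · simpa [hj] using ((mem_cyl hr).1 hw j hj).le

theorem upd_mem_ball {r : ℝ} (hr : 0 < r) {w : Fin n → ℂ} (hw : w ∈ cyl k z r) {ζ : ℂ}
    (hζ : ζ ∈ ball (z k) r) : update w k ζ ∈ ball z r := by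
  refine (dist_pi_lt_iff hr).2 fun j => ?_
  by_cases hj : j = k
  · subst hj; simpa using hζ
  · simpa [hj] using (mem_cyl hr).1 hw j hj

/-- near `z`, `u` extends to a function that is entire in `z_k` -/
def Loc (k : Fin n) (u : (Fin n → ℂ) → ℂ) (z : Fin n → ℂ) : Prop :=
  ∃ r > 0, ∃ E : (Fin n → ℂ) → ℂ, DifferentiableOn ℂ E (cyl k z r) ∧ EqOn E u (ball z r)

/-- the sum of the Taylor series -/
noncomputable def ser (k : Fin n) (p : ℂ) (u : (Fin n → ℂ) → ℂ) (w : Fin n → ℂ) : ℂ :=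
  ∑' m, co k p m u w * (w k - p) ^ m

theorem loc_of_dec {r : ℝ} (hr : 0 < r) (hu : DifferentiableOn ℂ u (ball z r))
    (h : Dec (fun m => co k (z k) m u) (ball z r)) : Loc k u z := by
  refine ⟨r, hr, ser k (z k) u, fun w hw => ?_, fun w hw => ?_⟩
  · obtain ⟨η, hη, hb⟩ := Metric.isOpen_iff.1 (isOpen_cyl isOpen_ball k (z k)) w hw
    set L := ‖w k - z k‖ + η with hL
    have hL0 : 0 < L := by positivity
    obtain ⟨M, hM⟩ := h (2 * L) (by positivity)
    refine (diffAt_tsum (a := fun m => M * (1 / 2) ^ m) hη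
      (summable_geometric_two.mul_left M) (fun m => ?_) fun m y hy => ?_).differentiableWithinAt
    · exact ((co_diff isOpen_ball hu m).mono hb).mul
        (Differentiable.differentiableOn (by fun_prop))
    · have h1 := hM m _ (hb hy)
      have h2 : ‖y k - z k‖ ≤ L := by
        have h3 := (dist_le_pi_dist y w k).trans_lt hy
        rw [dist_eq_norm] at h3
        linarith [norm_sub_le_norm_sub_add_norm_sub (y k) (w k) (z k)]
      simp only [co_update] at h1
      rw [norm_mul, norm_pow, show M * (1 / 2) ^ m = M / (2 * L) ^ m * L ^ m by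
        rw [mul_pow]; field_simp; simp]
      exact mul_le_mul h1 (pow_le_pow_left₀ (norm_nonneg _) h2 m) (by positivity)
        ((norm_nonneg _).trans h1)
  · exact (co_hasSum hu (fun ζ hζ => upd_mem_ball hr (ball_sub_cyl hr hw) hζ)
      ((dist_le_pi_dist _ _ k).trans_lt hw)).tsum_eq

theorem co_apriori {r : ℝ} (hr : 0 < r) (hO : IsOpen O) (hu : DifferentiableOn ℂ u O)
    (hb : closedBall z r ⊆ O) :
    (∀ m, DifferentiableOn ℂ (co k (z k) m u) (cyl k z r)) ∧
      ∃ A, ∀ m, ∀ w ∈ cyl k z r, ‖co k (z k) m u w‖ ≤ A / r ^ m := by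
  obtain ⟨A, hA⟩ := (isCompact_closedBall z r).exists_bound_of_continuousOn
    (hu.continuousOn.mono hb)
  exact ⟨fun m => (co_diff hO hu m).mono fun w hw => hb (ball_subset_closedBall hw), A,
    fun m w hw => co_bound hu hr (fun ζ hζ => ⟨hb (upd_mem_closedBall hr hw hζ),
      hA _ (upd_mem_closedBall hr hw hζ)⟩) m⟩

theorem smul_aux {H : ℝ} (hH : 0 < H) (a : Fin n → ℂ) :
    (I * (H / 2 : ℝ) - I * H) • ((I * (2 / H : ℝ)) • a) = a := by
  have h : (H : ℂ) ≠ 0 := by exact_mod_cast hH.ne'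
  rw [smul_smul, show (I * (H / 2 : ℝ) - I * H) * (I * (2 / H : ℝ)) = 1 by
    push_cast; field_simp; ring_nf; simp, one_smul]

theorem norm_aux {H : ℝ} (hH : 0 < H) {a : Fin n → ℂ} (ha : ‖a‖ ≤ H / 2) :
    ‖(I * (2 / H : ℝ)) • a‖ ≤ 1 := by
  rw [norm_smul, norm_mul, norm_I, one_mul, norm_real, Real.norm_of_nonneg (by positivity),
    div_mul_eq_mul_div, div_le_one hH]
  linarith

theorem loc_closed (hO : IsOpen O) (hu : DifferentiableOn ℂ u O) (hz : z ∈ O)
    (h : z ∈ closure {w | Loc k u w}) : Loc k u z := by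
  obtain ⟨r, hr, hb⟩ := nhds_basis_closedBall.mem_iff.1 (hO.mem_nhds hz)
  obtain ⟨z₁, ⟨δ₀, hδ₀, E, hE, hEu⟩, hz₁⟩ := Metric.mem_closure_iff.1 h (r / 10) (by positivity)
  obtain ⟨h1, A, hA⟩ := co_apriori (k := k) hr hO hu hb
  set δ := min δ₀ (r / 10) with hδ
  have hδ0 : 0 < δ := by positivity
  have hδ1 : δ ≤ δ₀ := min_le_left _ _
  have hδ2 : δ ≤ r / 10 := min_le_right _ _
  have hcc : cyl k z₁ δ ⊆ cyl k z₁ δ₀ := fun w hw => ball_subset_ball hδ1 hw
  have hbb : ∀ s, s ≤ r / 2 → closedBall z₁ s ⊆ ball z r := fun s hs =>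
    closedBall_subset_ball' (by rw [dist_comm]; linarith)
  have hVo : IsOpen (cyl k z₁ δ ∩ ball z r) := (isOpen_cyl isOpen_ball k _).inter isOpen_ball
  have hVc : Convex ℝ (cyl k z₁ δ ∩ ball z r) := by
    refine Convex.inter (fun a ha b hb' s t hs ht hst => ?_) (convex_ball z r)
    rw [mem_cyl hδ0] at ha hb' ⊢
    exact fun j hj => convex_ball (z₁ j) δ (ha j hj) (hb' j hj) hs ht hst
  have hid := ident hVo hVc.isPreconnected (f := fun w => E w - u w)
    ((hE.mono (inter_subset_left.trans hcc)).sub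
      (hu.mono fun w hw => hb (ball_subset_closedBall hw.2))) (z₀ := z₁)
    ⟨ball_sub_cyl hδ0 (mem_ball_self hδ0), hbb 0 (by positivity) (mem_closedBall_self le_rfl)⟩
    (eventually_of_mem (ball_mem_nhds z₁ hδ₀) fun w hw => sub_eq_zero.2 (hEu hw))
  have hZ : Dec (fun m => co k (z k) m u) (closedBall z₁ (δ / 2)) := by
    have hs : closedBall z₁ (δ / 2) ⊆ cyl k z₁ δ :=
      (closedBall_subset_ball (by linarith)).trans (ball_sub_cyl hδ0)
    intro R hR
    obtain ⟨M, hM⟩ := dec_of_slices (k := k) (p := z k) hE (isCompact_closedBall z₁ (δ / 2))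
      (fun w hw ζ => upd_mem_cyl (hcc (hs hw)) ζ) R hR
    refine ⟨M, fun m w hw => ?_⟩
    have hw' : update w k (z k) ∈ cyl k z₁ δ ∩ ball z r :=
      ⟨upd_mem_cyl (hs hw) _,
        (show w ∈ cyl k z r from ball_sub_cyl hr (hbb (δ / 2) (by linarith) hw))⟩
    have : ‖co k (z k) m E w‖ ≤ _ := hM m w hw
    rwa [co_congr (v := u) (eventually_of_mem (hVo.mem_nhds hw') fun y hy =>
      sub_eq_zero.1 (hid y hy))] at this
  refine loc_of_dec (r := r / 10) (by positivity)
    (hu.mono ((ball_subset_ball (by linarith)).trans (ball_subset_closedBall.trans hb)))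
    (hZ.prop (H := 2 * r / 5) (half_pos hδ0) (by positivity) hr h1 hA fun w hw => ?_)
  have hn : ‖w - z₁‖ ≤ 2 * r / 5 / 2 := by
    rw [← dist_eq_norm]
    linarith [dist_triangle w z z₁, mem_ball.1 hw]
  have hv := norm_aux (by positivity) hn
  refine ⟨z₁, _, hv, by rw [smul_aux (by positivity)]; simp,
    (hbb _ (by linarith)).trans (ball_sub_cyl hr), fun t ht => ?_⟩
  rw [mem_closedBall, dist_eq_norm, add_sub_cancel_left, norm_smul, norm_real, Real.norm_eq_abs]
  nlinarith [abs_nonneg t, norm_nonneg ((I * (2 / (2 * r / 5) : ℝ)) • (w - z₁))]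

theorem isOpen_loc : IsOpen {w | Loc k u w} := by
  refine Metric.isOpen_iff.2 fun z ⟨r, hr, E, hE, hEu⟩ => ⟨r, hr, fun w hw => ?_⟩
  have h0 : 0 < r - dist w z := sub_pos.2 hw
  refine ⟨_, h0, E, hE.mono fun y hy => ?_, hEu.mono (ball_subset_ball' (by linarith))⟩
  rw [mem_cyl h0] at hy
  exact (mem_cyl hr).2 fun j hj => by
    linarith [hy j hj, dist_triangle (y j) (w j) (z j), dist_le_pi_dist w z j]

theorem reV_update (w : Fin n → ℂ) (ζ : ℂ) : reV (update w k ζ) = update (reV w) k ζ.re := by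
  funext j
  by_cases hj : j = k
  · subst hj; simp [reV]
  · simp [reV, hj]

variable {Ω : Set (Fin n → ℝ)} {c : Fin n → ℝ} {σ : Fin n → ℤˣ}

theorem loc_line (hΩ : IsOpen Ω) (hu : DifferentiableOn ℂ u (Dksig Ω c k σ)) {x₀ : Fin n → ℝ}
    (hx : ∀ t, update x₀ k t ∈ Ω) : ∃ z ∈ Dksig Ω c k σ, Loc k u z := by
  have hO := isOpen_Dksig hΩ c k σ
  set z := pt x₀ (sv σ * fun j => c j + 1) with hz
  have hzO : z ∈ Dksig Ω c k σ := by
    refine ⟨by simpa [hz] using hx (x₀ k), fun j _ => ?_⟩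
    simp only [hz, pt_im, Pi.mul_apply]
    change c j < sv σ j * _
    rw [← mul_assoc, sv_sq]; linarith
  refine ⟨z, hzO, ?_⟩
  obtain ⟨r, hr, hb⟩ := nhds_basis_closedBall.mem_iff.1 (hO.mem_nhds hzO)
  obtain ⟨h1, A, hA⟩ := co_apriori (k := k) hr hO hu hb
  have hZ := dec_of_slices (k := k) (p := z k) hu ((isCompact_closedBall z r).inter_right
    (isClosed_eq continuous_reV (continuous_const (y := x₀)))) fun w hw ζ =>
      ⟨by rw [reV_update, show reV w = x₀ from hw.2]; exact hx _,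
        fun j hj => by simpa [hj] using (hb hw.1).2 j hj⟩
  refine loc_of_dec (r := r / 10) (by positivity)
    (hu.mono ((ball_subset_ball (by linarith)).trans (ball_subset_closedBall.trans hb)))
    (hZ.prop (d := r / 5) (H := r / 5) (by positivity) (by positivity) hr h1 hA fun w hw => ?_)
  have hj : ∀ j, ‖w j - z j‖ ≤ r / 10 := fun j => by
    rw [← dist_eq_norm]; exact ((dist_le_pi_dist w z j).trans_lt hw).le
  set b := pt x₀ fun j => (w j).im with hbd
  have hn : ‖w - b‖ ≤ r / 5 / 2 := by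
    refine (pi_norm_le_iff_of_nonneg (by positivity)).2 fun j => ?_
    have e : (w - b) j = ((w j - z j).re : ℂ) := by apply Complex.ext <;> simp [hbd, hz]
    rw [e, norm_real, Real.norm_eq_abs]
    linarith [abs_re_le_norm (w j - z j), hj j]
  have hbz : dist b z ≤ r / 10 := by
    refine (dist_pi_le_iff (by positivity)).2 fun j => ?_
    have e : b j - z j = ((w j - z j).im : ℂ) * I := by apply Complex.ext <;> simp [hbd, hz]
    rw [dist_eq_norm, e, norm_mul, norm_I, mul_one, norm_real, Real.norm_eq_abs]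
    linarith [abs_im_le_norm (w j - z j), hj j]
  have hv := norm_aux (by positivity) hn
  refine ⟨b, _, hv, by rw [smul_aux (by positivity)]; simp,
    (closedBall_subset_ball' (by linarith)).trans (ball_sub_cyl hr), fun t ht => ⟨?_, ?_⟩⟩
  · refine closedBall_subset_closedBall' (ε₁ := r / 5) (x := b) (by linarith) ?_
    rw [mem_closedBall, dist_eq_norm, add_sub_cancel_left, norm_smul, norm_real, Real.norm_eq_abs]
    nlinarith [abs_nonneg t, norm_nonneg ((I * (2 / (r / 5) : ℝ)) • (w - b))]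
  · funext j
    simp [reV, hbd, -ofReal_div]

/-- Hartogs' lemma for the domains `D^k_σ`. -/
theorem loc_all (hΩ : IsOpen Ω) (hc : IsPreconnected Ω) (hu : DifferentiableOn ℂ u (Dksig Ω c k σ))
    {x₀ : Fin n → ℝ} (hx : ∀ t, update x₀ k t ∈ Ω) : ∀ z ∈ Dksig Ω c k σ, Loc k u z := by
  have hp : IsPreconnected (Dksig Ω c k σ) := Wd_zero (j := k) (R := 0) ▸ preconn_Wd hc
  obtain ⟨z, h1, h2⟩ := loc_line hΩ hu hx
  exact hp.subset_of_closure_inter_subset isOpen_loc ⟨z, h1, h2⟩ fun w hw =>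
    loc_closed (isOpen_Dksig hΩ c k σ) hu hw.2 hw.1

theorem ser_diff (h : Loc k u (update z k p)) :
    DifferentiableAt ℂ (ser k p u) z ∧ ser k p u =ᶠ[𝓝 (update z k p)] u := by
  obtain ⟨r, hr, E, hE, hEu⟩ := h
  have ho : IsOpen (cyl k (update z k p) r) := isOpen_cyl isOpen_ball k _
  have key : ∀ w ∈ cyl k (update z k p) r, ser k p u w = E w := fun w hw => by
    have hw' : update w k p ∈ ball (update z k p) r := by simpa [cyl] using hw
    rw [← (co_hasSum hE (p := p) (r := dist (w k) p + 1) (fun ζ _ => upd_mem_cyl hw ζ)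
      (by simp)).tsum_eq]
    exact tsum_congr fun m => by
      rw [co_congr (v := u) (eventually_of_mem (isOpen_ball.mem_nhds hw') hEu)]
  have hz : z ∈ cyl k (update z k p) r := by simpa [cyl] using hr
  refine ⟨(hE.differentiableAt (ho.mem_nhds hz)).congr_of_eventuallyEq
    (eventually_of_mem (ho.mem_nhds hz) key), ?_⟩
  filter_upwards [ball_mem_nhds _ hr] with w hw
  rw [key w (ball_sub_cyl hr hw), hEu hw]

/-- the global extension -/
theorem ser_ext (hO : IsOpen O) (hu : DifferentiableOn ℂ u O) (h : ∀ z ∈ O, Loc k u z)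
    (hs : ∀ z ∈ O, update z k p ∈ O ∧ Convex ℝ {ζ | update z k ζ ∈ O}) :
    DifferentiableOn ℂ (ser k p u) {z | update z k p ∈ O} ∧ EqOn (ser k p u) u O := by
  have h1 : DifferentiableOn ℂ (ser k p u) {z | update z k p ∈ O} := fun z hz =>
    (ser_diff (h _ hz)).1.differentiableWithinAt
  refine ⟨h1, fun z hz => ?_⟩
  have := ident (isOpen_slice hO z k) (hs z hz).2.isPreconnected
    (f := fun ζ => ser k p u (update z k ζ) - u (update z k ζ))
    ((diff_slice h1 fun ζ _ => by simpa using (hs z hz).1).sub (diff_slice hu fun ζ h => h))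
    (z₀ := p) (hs z hz).1 (by
      filter_upwards [(ser_diff (h _ (hs z hz).1)).2.comp_tendsto
        ((diff_upd z k).continuous.tendsto p)] with ζ hζ using sub_eq_zero.2 hζ)
    (z k) (by simpa using hz)
  simpa [sub_eq_zero] using this

end Pool.Agent.Lib.MP_b71113_an.LI
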