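import Pool.Agent.Lib.MP_b71113_an.LI.Peak

/-! `g` vanishes at points that are separated inside the slice. -/

namespace Pool.Agent.Lib.MP_b71113_an.LI

open Set Filter Topology Complex Metric Function MeasureTheory
open scoped Real

variable {n : ℕ} {Ω T : Set (Fin n → ℝ)} {S : Finset (Fin n)} {a c : Fin n → ℝ} {ρ : ℝ}

theorem cont_prj : Continuous (prj S a) := continuous_pi fun j => by
  unfold prj; split_ifs <;> fun_prop

theorem prj_update {R : Type} {a x : Fin n → R} {k : Fin n} (hk : k ∈ S) (t : R) :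
    prj S a (update x k t) = prj S a x := by
  funext j
  unfold prj
  split_ifs with hj
  · rfl
  · exact update_of_ne (fun e => hj (by rw [e]; exact hk)) _ _

theorem dist_prj (hρ : 0 ≤ ρ) {x : Fin n → ℝ} (h : ∀ k ∈ S, |x k - a k| ≤ ρ) :
    dist x (prj S a x) ≤ ρ := (dist_pi_le_iff hρ).2 fun j => by
  unfold prj
  split_ifs with hj
  · exact h j hj
  · simpa using hρ

/-- boxes over a subset of the slice -/
def box (S : Finset (Fin n)) (a : Fin n → ℝ) (B : Set ℝ) (T : Set (Fin n → ℝ)) :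
    Set (Fin n → ℝ) := {x | (∀ k ∈ S, x k - a k ∈ B) ∧ prj S a x ∈ T}

theorem upd_mem_box {B : Set ℝ} {x : Fin n → ℝ} (hx : x ∈ box S a B T) {k : Fin n} (hk : k ∈ S)
    (t : ℝ) : update x k t ∈ box S a B T ↔ t - a k ∈ B := by
  refine ⟨fun h => by simpa using h.1 k hk, fun h => ⟨fun j hj => ?_, by rw [prj_update hk]; exact hx.2⟩⟩
  by_cases e : j = k
  · subst e; simpa using h
  · simpa [e] using hx.1 j hj

theorem box_eq (B : Set ℝ) : box S a B T =
    (⋂ k ∈ S, (fun x : Fin n → ℝ => x k - a k) ⁻¹' B) ∩ prj S a ⁻¹' T := by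
  ext x; simp [box]

theorem extend (hΩ : IsOpen Ω) (hΩc : IsPreconnected Ω)
    (hS : ∀ k ∈ S, ∃ x₀ : Fin n → ℝ, ∀ t, update x₀ k t ∈ Ω) (hρ : 0 < ρ) (hT : IsOpen T)
    (hW : box S a (ball 0 ρ) T ⊆ Ω) {k : Fin n} (hk : k ∈ S) {u : (Fin n → ℂ) → ℂ}
    (hu : DifferentiableOn ℂ u (Dkall Ω c k)) :
    DifferentiableOn ℂ (ser k (ctr a c k) u)
      {z | update z k (ctr a c k) ∈ Dkall (box S a (ball 0 ρ) T) c k} ∧
    EqOn (ser k (ctr a c k) u) u (Dkall (box S a (ball 0 ρ) T) c k) := by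
  have hsub : Dkall (box S a (ball 0 ρ) T) c k ⊆ Dkall Ω c k := fun z hz =>
    mem_Dkall.2 ⟨hW (mem_Dkall.1 hz).1, (mem_Dkall.1 hz).2⟩
  have hWo : IsOpen (box S a (ball 0 ρ) T) := box_eq (S := S) (a := a) (T := T) _ ▸
    (isOpen_biInter_finset fun k _ => isOpen_ball.preimage (by fun_prop)).inter
      (hT.preimage cont_prj)
  obtain ⟨x₀, hx₀⟩ := hS k hk
  refine ser_ext (isOpen_Dkall hWo) (hu.mono hsub) (fun z hz => ?_) fun z hz => ?_
  · obtain ⟨σ, hσ⟩ := mem_iUnion.1 (hsub hz)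
    exact loc_all hΩ hΩc (hu.mono (subset_iUnion (Dksig Ω c k) σ)) hx₀ z hσ
  · have e : ∀ ζ, update z k ζ ∈ Dkall (box S a (ball 0 ρ) T) c k ↔ ζ.re ∈ ball (a k) ρ := by
      intro ζ
      rw [mem_Dkall, reV_update, upd_mem_box (mem_Dkall.1 hz).1 hk, mem_ball_zero_iff,
        mem_ball_iff_norm]
      exact and_iff_left fun j hj => by simpa [hj] using (mem_Dkall.1 hz).2 j hj
    simp only [e]
    exact ⟨by simpa [ctr] using hρ, (convex_ball (a k) ρ).linear_preimage reLm⟩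

theorem weights {B b : ℝ} (hB : 1 ≤ B) (hb : 0 ≤ b) {t : Fin n → ℝ} {m : ℕ}
    (h : ∀ j ∈ S, t j ≤ 0 ∨ (t j ≤ b ∧ j.val + 1 ≤ m)) :
    ∑ j ∈ S, B ^ (j.val + 1) * t j ≤ n * b * B ^ m := by
  refine (Finset.sum_le_card_nsmul S _ (b * B ^ m) fun j hj => ?_).trans ?_
  · rcases h j hj with h1 | h1
    · exact (mul_nonpos_of_nonneg_of_nonpos (by positivity) h1).trans (by positivity)
    · rw [mul_comm]
      rcases le_total (t j) 0 with h2 | h2
      · exact (mul_nonpos_of_nonpos_of_nonneg h2 (by positivity)).trans (by positivity)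
      · exact mul_le_mul h1.1 (pow_le_pow_right₀ hB h1.2) (by positivity) hb
  · rw [nsmul_eq_mul, mul_assoc]
    refine mul_le_mul_of_nonneg_right ?_ (by positivity)
    exact_mod_cast (Finset.card_le_univ S).trans (by simp)

theorem peakL {K A : Set (Fin n → ℝ)} (hKc : IsCompact K) (hA : IsCompact A) (hρ : 0 < ρ)
    (hc : ∀ j, 0 ≤ c j) (hKa : ∀ x ∈ K, ∀ k ∈ S, |x k - a k| ≤ ρ) {Λ : (Fin n → ℂ) → ℂ}
    {q : (Fin n → ℝ) → ℝ} (hΛ : Differentiable ℂ Λ) (hq : ∀ x, Λ (ofR x) = q x) (hq0 : q a = 0)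
    (hq1 : ∀ x, x ≠ a → q x < 0) (hΛ1 : ∀ z ∈ tube A c, (Λ (prj S (ofR a) z)).re ≤ -1) {lam : ℝ}
    (hlam : 0 ≤ lam) : ∃ (L : (Fin n → ℂ) → ℂ) (p : (Fin n → ℝ) → ℝ) (δ : ℝ),
      Differentiable ℂ L ∧ (∀ x, L (ofR x) = p x) ∧ p a = 0 ∧ (∀ x ∈ K, x ≠ a → p x < 0) ∧
      δ ∈ Ioc (0 : ℝ) (1 / 2) ∧ (∀ k ∈ S, tube (K ∩ {x | ρ / 2 ≤ |x k - a k|})
        (fun j => (if j ∈ S ∧ j ≤ k then c j else 0) + δ) ⊆ {z | (L z).re < -lam}) ∧
      tube A (fun j => c j + δ) ⊆ {z | (L z).re < -lam} := by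
  have hq2 : ∀ x, q x ≤ 0 := fun x => by
    by_cases e : x = a
    · rw [e, hq0]
    · exact (hq1 x e).le
  set b := ∑ j, Real.cosh (π / ρ * c j) with hb
  have hb1 : ∀ j, Real.cosh (π / ρ * c j) ≤ b := fun j => Finset.single_le_sum
    (f := fun j => Real.cosh (π / ρ * c j)) (fun i _ => (Real.cosh_pos _).le) (Finset.mem_univ j)
  have hb0 : 0 ≤ b := Finset.sum_nonneg fun i _ => (Real.cosh_pos _).le
  set B := n * b + lam + 1 with hB
  have hnb : 0 ≤ n * b := by positivity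
  have hB1 : 1 ≤ B := by linarith
  set κ := n * b * B ^ n + lam + 1 with hκ
  have hκ0 : 0 < κ := by positivity
  set L : (Fin n → ℂ) → ℂ := fun z => ∑ k ∈ S, (B ^ (k.val + 1) : ℝ) *
    (cos ((π / ρ : ℝ) * (z k - a k)) - 1) + κ * Λ (prj S (ofR a) z) with hL
  have hPd : Differentiable ℂ (prj S (ofR a)) := differentiable_pi.2 fun j => by
    unfold prj; split_ifs <;> fun_prop
  have hLd : Differentiable ℂ L :=
    (Differentiable.fun_sum fun k _ => by fun_prop).add ((hΛ.comp hPd).const_mul _)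
  have hLre : ∀ z, (L z).re = ∑ k ∈ S, B ^ (k.val + 1) *
      ((cos ((π / ρ : ℝ) * (z k - a k))).re - 1) + κ * (Λ (prj S (ofR a) z)).re := fun z => by
    simp only [hL, add_re, re_sum, re_ofReal_mul, sub_re, one_re]
  have hV : IsOpen {z | (L z).re < -lam} :=
    isOpen_lt (continuous_re.comp hLd.continuous) continuous_const
  have e1 : ∀ k ∈ S, ∀ᶠ δ in 𝓝[>] (0 : ℝ), tube (K ∩ {x | ρ / 2 ≤ |x k - a k|})
      (fun j => (if j ∈ S ∧ j ≤ k then c j else 0) + δ) ⊆ {z | (L z).re < -lam} := by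
    intro k hk
    refine thick_ev (hKc.inter_right (isClosed_le continuous_const (by fun_prop)))
      (fun j => by split_ifs; exacts [hc j, le_rfl]) hV fun z hz => ?_
    have h1 : prj S (ofR a) z = ofR (prj S a (reV z)) := by
      funext j
      by_cases hj : j ∈ S
      · simp [prj, ofR, hj]
      · have : (z j).im = 0 := by simpa [hj] using hz.2 j
        apply Complex.ext <;> simp [prj, ofR, hj, reV, this]
    have h2 := weights (S := S.erase k) hB1 hb0 (m := k)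
      (t := fun j => (cos ((π / ρ : ℝ) * (z j - a j))).re - 1) fun j hj => by
        have h3 := re_cos_le (π / ρ) (hz.2 j) (a j)
        dsimp only at h3
        split_ifs at h3 with h4
        · exact Or.inr ⟨by linarith [hb1 j], lt_of_le_of_ne h4.2 (Finset.mem_erase.1 hj).1⟩
        · exact Or.inl (by simpa using h3)
    have h3 := re_cos_nonpos hρ (w := z k) hz.1.2 (hKa _ hz.1.1 k hk)
    have h4 : 1 ≤ B ^ k.val := one_le_pow₀ hB1
    have h5 := mul_nonpos_of_nonneg_of_nonpos hκ0.le (hq2 (prj S a (reV z)))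
    rw [mem_ofPred_eq, hLre, h1, hq, ofReal_re, ← Finset.add_sum_erase _ _ hk, pow_succ]
    have h6 : B ^ k.val * B * (cos ((π / ρ : ℝ) * (z k - a k))).re ≤ 0 :=
      mul_nonpos_of_nonneg_of_nonpos (by positivity) h3
    have h7 : B ^ k.val * B = n * b * B ^ k.val + (lam + 1) * B ^ k.val := by rw [hB]; ring
    nlinarith
  have e2 : ∀ᶠ δ in 𝓝[>] (0 : ℝ), tube A (fun j => c j + δ) ⊆ {z | (L z).re < -lam} := by
    refine thick_ev hA hc hV fun z hz => ?_
    have h2 := hΛ1 z hz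
    have h3 := weights (S := S) hB1 hb0 (m := n)
      (t := fun j => (cos ((π / ρ : ℝ) * (z j - a j))).re - 1) fun j _ =>
        Or.inr ⟨by linarith [hb1 j, re_cos_le (π / ρ) (hz.2 j) (a j)], j.2⟩
    rw [mem_ofPred_eq, hLre]
    nlinarith
  obtain ⟨δ, ⟨⟨d1, d2⟩, d3⟩⟩ := ((((eventually_all_finset S).2 e1).and e2).and
    (Ioc_mem_nhdsGT (show (0 : ℝ) < 1 / 2 by norm_num))).exists
  have hPr : ∀ x, prj S (ofR a) (ofR x) = ofR (prj S a x) := fun x => by
    funext j; by_cases hj : j ∈ S <;> simp [prj, ofR, hj]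
  refine ⟨L, fun x => ∑ k ∈ S, B ^ (k.val + 1) * (Real.cos (π / ρ * (x k - a k)) - 1) +
    κ * q (prj S a x), δ, hLd, fun x => ?_, ?_, fun x hx hxa => ?_, d3, d1, d2⟩
  · simp only [hL, hPr, hq]
    simp only [ofR]
    push_cast
    rfl
  · simp [show prj S a a = a by funext j; simp [prj], hq0]
  · have h1 : ∀ k ∈ S, B ^ (k.val + 1) * (Real.cos (π / ρ * (x k - a k)) - 1) ≤ 0 := fun k _ =>
      mul_nonpos_of_nonneg_of_nonpos (by positivity) (sub_nonpos.2 (Real.cos_le_one _))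
    by_cases h2 : ∃ k ∈ S, x k ≠ a k
    · obtain ⟨k, hk, h3⟩ := h2
      have h4 := Finset.sum_lt_sum h1 ⟨k, hk, mul_neg_of_pos_of_neg (by positivity)
        (sub_neg.2 (cos_lt hρ (sub_ne_zero.2 h3) (hKa x hx k hk)))⟩
      have h5 := mul_nonpos_of_nonneg_of_nonpos hκ0.le (hq2 (prj S a x))
      simp only [Finset.sum_const_zero] at h4
      linarith
    · push Not at h2
      have h3 : prj S a x = x := by
        funext j; unfold prj; split_ifs with hj; exacts [(h2 j hj).symm, rfl]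
      have h4 := mul_neg_of_pos_of_neg hκ0 (hq1 x hxa)
      simp only [h3]
      linarith [Finset.sum_nonpos h1]

theorem vanish_line (hΩ : IsOpen Ω) (hΩc : IsPreconnected Ω) (hc : ∀ j, 0 ≤ c j)
    (hS : ∀ k ∈ S, ∃ x₀ : Fin n → ℝ, ∀ t, update x₀ k t ∈ Ω) {f : (Fin n → ℂ) → ℂ}
    {F : (Fin n → ℤˣ) → (Fin n → ℂ) → ℂ} (h : Admissible Ω c f F) {Ω₁ K₀ : Set (Fin n → ℝ)}
    (hΩ₁ : IsOpen Ω₁) (hs : Ω₁ ⊆ Ω) (ha : a ∈ Ω₁) {φ : (Fin n → ℂ) → ℂ} (hφ : Differentiable ℂ φ)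
    (hK₀ : IsCompact K₀) (hK₀Ω : K₀ ⊆ Ω₁) {M : ℝ} (hM0 : 0 ≤ M)
    (hM : ∀ w ∈ tube (Ω₁ \ K₀) c, (∀ k ∈ S, w k = a k) → ‖φ w‖ ≤ M) (hlt : M < ‖φ (ofR a)‖) :
    gfun F a = 0 := by
  have haK : a ∈ K₀ := by_contra fun hn =>
    absurd (hM _ (ofR_mem_tube hc ⟨ha, hn⟩) fun _ _ => rfl) (not_le.2 hlt)
  obtain ⟨K₁, hK₁, hK₀₁, hK₁Ω⟩ := exists_compact_between hK₀ hΩ₁ hK₀Ω
  obtain ⟨χ₀, hχ₀, hT, hTΩ, hχ1, -⟩ := exists_bump hK₁ hΩ₁ hK₁Ω
  obtain ⟨ρ₀, hρ₀, hth⟩ := hT.exists_cthickening_subset_open hΩ (hTΩ.trans hs)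
  obtain ⟨ρ, hρ, hρ1, hρ2⟩ : ∃ ρ : ℝ, 0 < ρ ∧ ρ ≤ 1 / 2 ∧ 3 * ρ ≤ ρ₀ :=
    ⟨min (1 / 2) (ρ₀ / 3), by positivity, min_le_left _ _,
      by linarith [min_le_right (1 / 2) (ρ₀ / 3)]⟩
  set W := box S a (ball 0 (2 * ρ)) (thickening ρ (tsupport χ₀)) with hW
  set K := box S a (closedBall 0 ρ) (tsupport χ₀) with hK
  have hWΩ : W ⊆ Ω := fun x hx => by
    obtain ⟨y, hy, hd⟩ := mem_thickening_iff.1 hx.2
    have := dist_prj (by positivity) fun k hk => (mem_ball_zero_iff.1 (hx.1 k hk)).le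
    exact hth (mem_cthickening_of_dist_le x y _ _ hy (by linarith [dist_triangle x (prj S a x) y]))
  have hWo : IsOpen W := hW ▸ box_eq (S := S) (a := a) _ ▸
    (isOpen_biInter_finset fun k _ => isOpen_ball.preimage (by fun_prop)).inter
      (isOpen_thickening.preimage cont_prj)
  have hKa : ∀ x ∈ K, ∀ k ∈ S, |x k - a k| ≤ ρ := fun x hx k hk =>
    mem_closedBall_zero_iff.1 (hx.1 k hk)
  have hKcl : IsClosed K := hK ▸ box_eq (S := S) (a := a) _ ▸
    (isClosed_biInter fun k _ => Metric.isClosed_closedBall.preimage (by fun_prop)).inter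
      ((isClosed_tsupport _).preimage cont_prj)
  have hKc : IsCompact K := (hT.cthickening (r := ρ)).of_isClosed_subset hKcl fun x hx =>
    mem_cthickening_of_dist_le x _ _ _ hx.2 (dist_prj hρ.le (hKa x hx))
  have hKW : K ⊆ W := fun x hx => ⟨fun k hk => closedBall_subset_ball (by linarith) (hx.1 k hk),
    self_subset_thickening hρ _ hx.2⟩
  obtain ⟨χ, hχ, hχa, hχ2, hχ3, hχ4⟩ := cutoff S a (hχ₀.of_le (by exact_mod_cast le_top))
    isOpen_interior (fun x hx => hχ1 x (interior_subset hx)) (hK₀₁ haK) hρ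
  have hχK : tsupport χ ⊆ K := closure_minimal
    (fun x hx => ⟨fun k hk => mem_closedBall_zero_iff.2 ((hχ2 x hx).1 k hk), (hχ2 x hx).2⟩) hKcl
  have hcs : HasCompactSupport χ := hKc.of_isClosed_subset (isClosed_tsupport _) hχK
  have hfd : ∀ x v, fderiv ℝ χ x v ≠ 0 → x ∈ K := fun x v hx =>
    hχK (support_fderiv_subset ℝ fun h0 => hx (by simp [h0]))
  obtain ⟨Λ, q, hΛ, hq, hq0, hq1, hΛ1⟩ := peak_fun hφ hM0 hlt c
  set l := S.sort (· ≥ ·) with hl
  have hlS : ∀ j, j ∈ l ↔ j ∈ S := fun j => Finset.mem_sort _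
  set lam := 2 * rate c ρ l.length with hlam
  have hc0 : 0 ≤ ∑ j, c j := Finset.sum_nonneg fun j _ => hc j
  have hrate : 1 ≤ rate c ρ l.length := one_le_pow₀ (le_add_of_nonneg_right (by positivity))
  have hθ : rate c ρ l.length * Real.exp (-lam) ≤ 1 / 2 := by
    rw [Real.exp_neg, ← div_eq_mul_inv, div_le_iff₀ (Real.exp_pos _)]
    linarith [Real.add_one_le_exp lam]
  obtain ⟨L, p, δ, hLd, hLp, hp0, hp1, d3, d1, d2⟩ := peakL (S := S) hKc
    (hKc.inter_right ((isOpen_interior (s := K₁)).isClosed_compl.preimage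
      (cont_prj (S := S) (a := a)))) hρ hc hKa hΛ hq hq0 hq1 (fun z hz => by
    have hre : reV (prj S (ofR a) z) = prj S a (reV z) := by
      funext j; by_cases hj : j ∈ S <;> simp [prj, reV, hj]
    have h1 : prj S (ofR a) z ∈ tube (Ω₁ \ K₀) c :=
      ⟨by rw [hre]; exact ⟨hTΩ hz.1.1.2, fun h => hz.1.2 (hK₀₁ h)⟩, fun j => by
        unfold prj; split_ifs; exacts [by simpa using hc j, hz.2 j]⟩
    exact hΛ1 _ (hM _ h1 fun k hk => by simp [prj, hk, ofR])
      (hM _ (star_mem_tube h1) fun k hk => by simp [prj, hk, ofR]) h1.2)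
    (lam := lam) (by linarith)
  have hsm : ∀ z, (L z).re < -lam → ‖exp (L z)‖ ≤ Real.exp (-lam) := fun z hz => by
    rw [norm_exp]; exact Real.exp_le_exp.2 hz.le
  obtain ⟨hf, hF, u, hu, hfu⟩ := h.mono hWΩ
  obtain ⟨-, -, u, hu, hfu⟩ := id h
  have hext := fun k (hk : k ∈ S) => extend (a := a) hΩ hΩc hS (by positivity) isOpen_thickening
    hWΩ hk (hu k)
  have hDW : ∀ j, Dkall W c j ⊆ Dkall Ω c j := fun j z hz =>
    mem_Dkall.2 ⟨hWΩ (mem_Dkall.1 hz).1, (mem_Dkall.1 hz).2⟩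
  obtain ⟨C, hC⟩ := est (l := l) (a := a) (Φ := fun z => exp (L z)) (F := F)
    (E := fun j => if j ∈ S then ser j (ctr a c j) (u j) else u j) hχ hcs hWo hKc hKW hχK hc hρ hρ1
    d3.1 d3.2 hf hF
    (fun j => ((hu j).mono (hDW j)).congr fun z hz => by
      split_ifs with hj; exacts [(hext j hj).2 hz, rfl])
    (fun j hj => by simpa only [if_pos ((hlS j).1 hj)] using (hext j ((hlS j).1 hj)).1)
    (fun z hz => by
      rw [hfu z (mem_Dall.2 ⟨hWΩ (mem_Dall.1 hz).1, (mem_Dall.1 hz).2⟩)]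
      refine Finset.sum_congr rfl fun j _ => ?_
      split_ifs with hj
      exacts [((hext j hj).2 (mem_Dkall.2 ⟨(mem_Dall.1 hz).1, fun i _ =>
        (mem_Dall.1 hz).2 i⟩)).symm, rfl])
    isOpen_univ hLd.cexp.differentiableOn (subset_univ _) (Real.exp_pos _).le hθ
    (List.sortedGT_iff_pairwise.1 (Finset.sortedGT_sort S))
    (fun k hk x hx t ht => (upd_mem_box hx ((hlS k).1 hk) t).2
      (mem_ball_zero_iff.2 (ht.trans_lt (by linarith))))
    (fun k hk x hx t ht => (upd_mem_box hx ((hlS k).1 hk) t).2 (mem_closedBall_zero_iff.2 ht))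
    (fun k hk x hx => (hKa x hx k ((hlS k).1 hk)).trans (by linarith))
    (fun k hk x v h1 h2 w hw => hsm _ (d1 k ((hlS k).1 hk)
      (pt_mem_tube ⟨hfd x v h2, hχ3 k ((hlS k).1 hk) x v h1 h2⟩ (by simpa only [hlS] using hw))))
    (fun w ⟨⟨v, h1, h2⟩, h3⟩ => hsm _ (d2 ⟨⟨hfd _ v h2,
      hχ4 _ v (fun j hj => h1 j ((hlS j).2 hj)) h2⟩, h3⟩))
    fun w hw => by
      obtain ⟨j, hj⟩ : ∃ j, fderiv ℝ χ (reV w) (Pi.single j 1) ≠ 0 := by
        by_contra! h0
        refine hw.1 (ContinuousLinearMap.coe_injective (LinearMap.pi_ext' fun j => ?_))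
        ext; simpa using h0 j
      refine (hsm w ?_).trans (le_trans (le_mul_of_one_le_left (Real.exp_pos _).le hrate) hθ)
      by_cases hjS : j ∈ S
      · refine d1 j hjS ⟨⟨hfd _ _ hj, hχ3 j hjS _ _ (fun i hi => by simp [hi]) hj⟩, fun i => ?_⟩
        refine (hw.2 i).trans (le_add_of_nonneg_left ?_)
        split_ifs; exacts [hc i, le_rfl]
      · exact d2 ⟨⟨hfd _ _ hj, hχ4 _ _ (fun i hi => Pi.single_eq_of_ne
          (fun e => hjS (by rw [← e]; exact hi)) _) hj⟩, fun i => (hw.2 i).trans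
            (le_add_of_nonneg_left (hc i))⟩
  have hpc : Continuous p := by
    have := continuous_re.comp (hLd.continuous.comp continuous_ofR)
    simpa only [Function.comp_def, hLp, ofReal_re] using this
  have key := zero_of_peak hcs (x₀ := a) (p := fun x => Real.exp (p x))
    (g := fun x => (χ x : ℂ) * gfun F x) (C := C)
    (θ := 1 / 2) (interior_mono (subset_tsupport _) (by
      rw [hχ.continuous.isOpen_support.interior_eq]; simp [hχa]))
    (Real.continuous_exp.comp hpc).continuousOn (fun x _ => (Real.exp_pos _).le) (by simp [hp0])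
    (fun x hx hxa => Real.exp_lt_one_iff.2 (hp1 x (hχK hx) hxa))
    ((continuous_ofReal.comp hχ.continuous).continuousOn.mul
      ((continuousOn_gfun h).mono (hχK.trans (hKW.trans hWΩ)))) (by norm_num) (by norm_num)
    fun m => ?_
  · simpa [hχa] using key
  · refine le_of_eq_of_le (congrArg _ ?_) (hC m)
    rw [setIntegral_eq_integral_of_forall_compl_eq_zero]
    · congr 1
      funext x
      rw [hLp, real_smul]
      push_cast
      ring
    · intro x hx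
      simp [image_eq_zero_of_notMem_tsupport hx]

end Pool.Agent.Lib.MP_b71113_an.LI
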