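import Pool.Agent.Lib.MP_b71113_an.LI.Oper

/-! Contour shifts for sequences of functions of geometric growth. -/

namespace Pool.Agent.Lib.MP_b71113_an.LI

open Set Filter Topology Complex Metric Function MeasureTheory

variable {n : ℕ}

/-- sequences that are `O(2^{-N})` -/
def Sm (T : ℕ → ℂ) : Prop := ∃ C : ℝ, ∀ N, ‖T N‖ ≤ C * (1 / 2) ^ N

theorem Sm.add {T S : ℕ → ℂ} (hT : Sm T) (hS : Sm S) : Sm fun N => T N + S N := by
  obtain ⟨C, hC⟩ := hT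
  obtain ⟨D, hD⟩ := hS
  exact ⟨C + D, fun N => (norm_add_le _ _).trans (by linarith [hC N, hD N])⟩

theorem Sm.const_mul {T : ℕ → ℂ} (hT : Sm T) (a : ℂ) : Sm fun N => a * T N := by
  obtain ⟨C, hC⟩ := hT
  refine ⟨‖a‖ * C, fun N => ?_⟩
  rw [norm_mul, mul_assoc]
  exact mul_le_mul_of_nonneg_left (hC N) (norm_nonneg _)

theorem Sm.sum {ι : Type} (s : Finset ι) {T : ι → ℕ → ℂ} (hT : ∀ i, Sm (T i)) :
    Sm fun N => ∑ i ∈ s, T i N := by
  classical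
  induction s using Finset.induction_on with
  | empty => exact ⟨0, fun N => by simp⟩
  | insert a s ha ih =>
    simp only [Finset.sum_insert ha]
    exact (hT a).add ih

theorem Sm.congr {T S : ℕ → ℂ} (hT : Sm T) (h : ∀ N, S N = T N) : Sm S := by
  rwa [show S = T from funext h]

/-- the integral over `ℝⁿ + i y` -/
noncomputable def J (χ : (Fin n → ℝ) → ℝ) (Φ : (Fin n → ℂ) → ℂ) (u : ℕ → (Fin n → ℂ) → ℂ)
    (y : Fin n → ℝ) (N : ℕ) : ℂ :=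
  ∫ x, (χ x : ℂ) * (u N (pt x y) * Φ (pt x y) ^ N)

/-- the alternating sum over the corners -/
noncomputable def Q (χ : (Fin n → ℝ) → ℝ) (Φ : (Fin n → ℂ) → ℂ) (u : ℕ → (Fin n → ℂ) → ℂ)
    (y : Fin n → ℝ) (N : ℕ) : ℂ :=
  ∑ σ, sgn σ * J χ Φ u (sv σ * y) N

variable {χ : (Fin n → ℝ) → ℝ} {Φ : (Fin n → ℂ) → ℂ} {u : ℕ → (Fin n → ℂ) → ℂ}
  {O V K : Set (Fin n → ℂ)} {A : Set (Fin n → ℝ)} {M Γ θ : ℝ} {y y' b : Fin n → ℝ} {k : Fin n}

theorem pow_half (hM : 0 ≤ M) (hΓ : 0 ≤ Γ) (hθ : 0 ≤ θ) (h : Γ * θ ≤ 1 / 2) (N : ℕ) :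
    M * Γ ^ N * θ ^ N ≤ M * (1 / 2) ^ N := by
  rw [mul_assoc, ← mul_pow]
  exact mul_le_mul_of_nonneg_left (pow_le_pow_left₀ (by positivity) h N) hM

theorem sm_shift (hχ : ContDiff ℝ 1 χ) (hc : HasCompactSupport χ) (hV : IsOpen V) (hO : IsOpen O)
    (hu : ∀ N, DifferentiableOn ℂ (u N) V) (hΦ : DifferentiableOn ℂ Φ O) (hK : K ⊆ V)
    (hM : ∀ N, ∀ z ∈ K, ‖u N z‖ ≤ M * Γ ^ N) (hΓ : 0 ≤ Γ) (hθ : 0 ≤ θ) (h : Γ * θ ≤ 1 / 2)
    (hsub : tube (tsupport χ) b ⊆ O) (hA : ∀ w ∈ tube A b, ‖Φ w‖ ≤ θ) (y v : Fin n → ℝ)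
    (hv : ∀ x, fderiv ℝ χ x v ≠ 0 → x ∈ A)
    (hin : ∀ s ∈ Icc (0 : ℝ) 1, (∀ j, |(y + s • v) j| ≤ b j) ∧
      ∀ x ∈ tsupport χ, pt x (y + s • v) ∈ K) :
    Sm fun N => J χ Φ u (y + v) N - J χ Φ u y N := by
  refine ⟨|M| * ∫ x, |fderiv ℝ χ x v|, fun N => ?_⟩
  have := shift' (G := fun z => u N z * Φ z ^ N) hχ hc (hV.inter hO)
    (((hu N).mono inter_subset_left).mul ((hΦ.mono inter_subset_right).pow N)) y v
    (fun x hx s hs => ⟨hK ((hin s hs).2 x hx), hsub (pt_mem_tube hx (hin s hs).1)⟩)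
    (B := |M| * (1 / 2) ^ N) fun x hx s hs => ?_
  · unfold J
    linarith
  · have hx' : x ∈ tsupport χ := support_fderiv_subset ℝ fun h0 => hx (by simp [h0])
    rw [norm_mul, norm_pow]
    refine le_trans ?_ (pow_half (abs_nonneg M) hΓ hθ h N)
    refine mul_le_mul ((hM N _ ((hin s hs).2 x hx')).trans ?_)
      (pow_le_pow_left₀ (norm_nonneg _) (hA _ (pt_mem_tube (hv x hx) (hin s hs).1)) N)
      (by positivity) (by positivity)
    exact mul_le_mul_of_nonneg_right (le_abs_self M) (by positivity)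

theorem sm_move (hχ : ContDiff ℝ 1 χ) (hc : HasCompactSupport χ) (hV : IsOpen V) (hO : IsOpen O)
    (hu : ∀ N, DifferentiableOn ℂ (u N) V) (hΦ : DifferentiableOn ℂ Φ O) (hK : K ⊆ V)
    (hM : ∀ N, ∀ z ∈ K, ‖u N z‖ ≤ M * Γ ^ N) (hΓ : 0 ≤ Γ) (hθ : 0 ≤ θ) (h : Γ * θ ≤ 1 / 2)
    (hsub : tube (tsupport χ) y' ⊆ O) (hA : ∀ w ∈ tube A y', ‖Φ w‖ ≤ θ) (hy : ∀ j, 0 ≤ y j)
    (hyy : ∀ j, y j ≤ y' j)
    (hv : ∀ x v, (∀ j, y j = y' j → v j = 0) → fderiv ℝ χ x v ≠ 0 → x ∈ A)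
    (hin : ∀ x ∈ tsupport χ, ∀ w : Fin n → ℝ, (∀ j, y j ≤ |w j| ∧ |w j| ≤ y' j) → pt x w ∈ K) :
    Sm fun N => Q χ Φ u y' N - Q χ Φ u y N := by
  have h1 : ∀ σ, Sm fun N => J χ Φ u (sv σ * y') N - J χ Φ u (sv σ * y) N := fun σ => by
    have key : ∀ s ∈ Icc (0 : ℝ) 1, ∀ j, y j ≤ |(sv σ * y + s • (sv σ * y' - sv σ * y)) j| ∧
        |(sv σ * y + s • (sv σ * y' - sv σ * y)) j| ≤ y' j := fun s hs j => by
      have e : (sv σ * y + s • (sv σ * y' - sv σ * y)) j = sv σ j * (y j + s * (y' j - y j)) := by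
        simp; ring
      have h2 := mul_nonneg hs.1 (sub_nonneg.2 (hyy j))
      have h3 := mul_nonneg (sub_nonneg.2 hs.2) (sub_nonneg.2 (hyy j))
      rw [e, abs_mul, abs_sv, one_mul, abs_of_nonneg (by linarith [hy j])]
      constructor <;> linarith
    have := sm_shift hχ hc hV hO hu hΦ hK hM hΓ hθ h hsub hA (sv σ * y) (sv σ * y' - sv σ * y)
      (fun x => hv x _ fun j hj => by simp [hj])
      fun s hs => ⟨fun j => (key s hs j).2, fun x hx => hin x hx _ (key s hs)⟩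
    simpa only [add_sub_cancel] using this
  refine (Sm.sum Finset.univ fun σ => (h1 σ).const_mul (sgn σ)).congr fun N => ?_
  simp only [Q, mul_sub, Finset.sum_sub_distrib]

theorem sm_flip (hχ : ContDiff ℝ 1 χ) (hc : HasCompactSupport χ) (hV : IsOpen V) (hO : IsOpen O)
    (hu : ∀ N, DifferentiableOn ℂ (u N) V) (hΦ : DifferentiableOn ℂ Φ O) (hK : K ⊆ V)
    (hM : ∀ N, ∀ z ∈ K, ‖u N z‖ ≤ M * Γ ^ N) (hΓ : 0 ≤ Γ) (hθ : 0 ≤ θ) (h : Γ * θ ≤ 1 / 2)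
    (hsub : tube (tsupport χ) y ⊆ O) (hA : ∀ w ∈ tube A y, ‖Φ w‖ ≤ θ) (hy : ∀ j, 0 ≤ y j)
    (hv : ∀ x v, (∀ j, j ≠ k → v j = 0) → fderiv ℝ χ x v ≠ 0 → x ∈ A)
    (hin : ∀ x ∈ tsupport χ, ∀ w : Fin n → ℝ, |w k| ≤ y k → (∀ j, j ≠ k → |w j| = y j) →
      pt x w ∈ K) : Sm (Q χ Φ u y) := by
  have h1 : ∀ σ, Sm fun N => J χ Φ u (sv σ * y) N - J χ Φ u (sv (flip k σ) * y) N := fun σ => by
    have key : ∀ s ∈ Icc (0 : ℝ) 1,
        |(sv (flip k σ) * y + s • (sv σ * y - sv (flip k σ) * y)) k| ≤ y k ∧ ∀ j, j ≠ k →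
        |(sv (flip k σ) * y + s • (sv σ * y - sv (flip k σ) * y)) j| = y j := fun s hs => by
      refine ⟨?_, fun j hj => by simp [sv, flip, hj, abs_mul, abs_of_nonneg (hy j),
        show |((σ j : ℤ) : ℝ)| = 1 from abs_sv σ j]⟩
      have e : (sv (flip k σ) * y + s • (sv σ * y - sv (flip k σ) * y)) k =
          sv σ k * ((2 * s - 1) * y k) := by simp [sv, flip]; ring
      have h3 : |2 * s - 1| ≤ 1 := abs_le.2 ⟨by linarith [hs.1], by linarith [hs.2]⟩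
      rw [e, abs_mul, abs_sv, one_mul, abs_mul, abs_of_nonneg (hy k)]
      exact mul_le_of_le_one_left (hy k) h3
    have := sm_shift hχ hc hV hO hu hΦ hK hM hΓ hθ h hsub hA (sv (flip k σ) * y)
      (sv σ * y - sv (flip k σ) * y) (fun x => hv x _ fun j hj => by simp [sv, flip, hj])
      fun s hs => ⟨fun j => by
        by_cases hj : j = k
        · subst hj; exact (key s hs).1
        · exact ((key s hs).2 j hj).le, fun x hx => hin x hx _ (key s hs).1 (key s hs).2⟩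
    simpa only [add_sub_cancel] using this
  refine ((Sm.sum Finset.univ fun σ => (h1 σ).const_mul (sgn σ)).const_mul (1 / 2)).congr
    fun N => sum_flip k fun σ => J χ Φ u (sv σ * y) N

theorem abs_sv_mul (hy : ∀ j, 0 ≤ y j) (σ : Fin n → ℤˣ) (j : Fin n) : |(sv σ * y) j| = y j := by
  simp [abs_mul, abs_sv, abs_of_nonneg (hy j)]

theorem sm_tiny (hχ : ContDiff ℝ 1 χ) (hc : HasCompactSupport χ)
    (hM : ∀ N, ∀ z ∈ K, ‖u N z‖ ≤ M * Γ ^ N) (hΓ : 0 ≤ Γ) (hθ : 0 ≤ θ) (h : Γ * θ ≤ 1 / 2)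
    (hA : ∀ w ∈ tube (tsupport χ) y, ‖Φ w‖ ≤ θ) (hy : ∀ j, 0 ≤ y j)
    (hin : ∀ x ∈ tsupport χ, ∀ w : Fin n → ℝ, (∀ j, |w j| = y j) → pt x w ∈ K) :
    Sm (Q χ Φ u y) := by
  refine Sm.sum Finset.univ fun σ => Sm.const_mul ⟨|M| * ∫ x, |χ x|, fun N => ?_⟩ _
  rw [mul_right_comm, ← integral_const_mul]
  refine norm_integral_le_of_norm_le
    ((hχ.continuous.integrable_of_hasCompactSupport hc).abs.const_mul _)
    (Eventually.of_forall fun x => ?_)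
  by_cases hx : x ∈ tsupport χ
  · rw [norm_mul, norm_real, Real.norm_eq_abs, mul_comm, norm_mul, norm_pow]
    refine mul_le_mul_of_nonneg_right (le_trans ?_ (pow_half (abs_nonneg M) hΓ hθ h N))
      (abs_nonneg _)
    refine mul_le_mul ((hM N _ (hin x hx _ (abs_sv_mul hy σ))).trans ?_)
      (pow_le_pow_left₀ (norm_nonneg _) (hA _ (pt_mem_tube hx fun j => (abs_sv_mul hy σ j).le)) N)
      (by positivity) (by positivity)
    exact mul_le_mul_of_nonneg_right (le_abs_self M) (by positivity)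
  · simp [image_eq_zero_of_notMem_tsupport hx]

theorem Q_sum {ι : Type} [Fintype ι] {w : ι → ℕ → (Fin n → ℂ) → ℂ} (hχ : ContDiff ℝ 1 χ)
    (hc : HasCompactSupport χ) (hw : ∀ i N, DifferentiableOn ℂ (w i N) V)
    (hΦ : DifferentiableOn ℂ Φ O) (hsub : tube (tsupport χ) y ⊆ O) (hy : ∀ j, 0 ≤ y j)
    (hin : ∀ x ∈ tsupport χ, ∀ w : Fin n → ℝ, (∀ j, |w j| = y j) → pt x w ∈ V)
    (h : ∀ N, ∀ z ∈ V, u N z = ∑ i, w i N z) (N : ℕ) : Q χ Φ u y N = ∑ i, Q χ Φ (w i) y N := by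
  unfold Q
  rw [Finset.sum_comm]
  refine Finset.sum_congr rfl fun σ _ => ?_
  have z0 : ∀ x, x ∉ tsupport χ → (χ x : ℂ) = 0 := fun x hx => by
    simp [image_eq_zero_of_notMem_tsupport hx]
  have hpt : Continuous fun x : Fin n → ℝ => pt x (sv σ * y) :=
    continuous_pt.comp (continuous_id.prodMk continuous_const)
  rw [← Finset.mul_sum]
  unfold J
  rw [← integral_finsetSum]
  · congr 2
    funext x
    by_cases hx : x ∈ tsupport χ
    · rw [h N _ (hin x hx _ (abs_sv_mul hy σ)), Finset.sum_mul, Finset.mul_sum]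
    · simp [z0 x hx]
  · exact fun i _ => integrable_cut hc (continuous_ofReal.comp hχ.continuous) z0
      (((hw i N).continuousOn.comp hpt.continuousOn fun x hx => hin x hx _ (abs_sv_mul hy σ)).mul
        ((hΦ.continuousOn.comp hpt.continuousOn fun x hx =>
          hsub (pt_mem_tube hx fun j => (abs_sv_mul hy σ j).le)).pow N))

theorem sm_start {W : Set (Fin n → ℝ)} {f : (Fin n → ℂ) → ℂ}
    {F : (Fin n → ℤˣ) → (Fin n → ℂ) → ℂ} (hχ : ContDiff ℝ 1 χ) (hc : HasCompactSupport χ)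
    (hW : IsOpen W) (hχW : tsupport χ ⊆ W) (hf : DifferentiableOn ℂ f (Dall W 0))
    (hF : ∀ σ, ContinuousOn (F σ) (closure (Dsig W 0 σ)) ∧ EqOn (F σ) f (Dsig W 0 σ))
    (hO : IsOpen O) (hΦ : DifferentiableOn ℂ Φ O) (hsub : tube (tsupport χ) y ⊆ O)
    (hy : ∀ j, 0 < y j) (hA : ∀ w ∈ tube {x | fderiv ℝ χ x ≠ 0} y, ‖Φ w‖ ≤ 1 / 2) :
    Sm fun N => Q χ Φ (fun _ => f) y N - ∫ x, (χ x : ℂ) * (gfun F x * Φ (ofR x) ^ N) := by
  have h1 : ∀ σ, Sm fun N => J χ Φ (fun _ => f) (sv σ * y) N -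
      ∫ x, (χ x : ℂ) * (F σ (ofR x) * Φ (ofR x) ^ N) := fun σ => by
    obtain ⟨C, hC⟩ := bdd_start hχ hc hW hχW hy (hf.mono (subset_iUnion (Dsig W 0) σ))
      (hF σ).1 (hF σ).2
    exact ⟨C, fun N => hC (fun z => Φ z ^ N) O _ ⟨hO, hΦ.pow N, hsub, by positivity, fun w hw => by
      rw [norm_pow]; exact pow_le_pow_left₀ (norm_nonneg _) (hA w hw) N⟩⟩
  refine (Sm.sum Finset.univ fun σ => (h1 σ).const_mul (sgn σ)).congr fun N => ?_
  have z0 : ∀ x, x ∉ tsupport χ → (χ x : ℂ) = 0 := fun x hx => by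
    simp [image_eq_zero_of_notMem_tsupport hx]
  simp only [Q, mul_sub, Finset.sum_sub_distrib]
  congr 1
  simp_rw [← integral_const_mul]
  rw [← integral_finsetSum]
  · congr 1
    funext x
    simp only [gfun, Finset.sum_mul, Finset.mul_sum, sgn]
    refine Finset.sum_congr rfl fun σ _ => by ring
  · intro σ _
    refine Integrable.const_mul (integrable_cut hc (continuous_ofReal.comp hχ.continuous) z0
      (((continuousOn_F (hF σ).1).mono hχW).mul (ContinuousOn.pow ?_ N))) _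
    refine hΦ.continuousOn.comp continuous_ofR.continuousOn fun x hx => ?_
    exact hsub (ofR_mem_tube (fun j => (hy j).le) hx)

end Pool.Agent.Lib.MP_b71113_an.LI
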