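import Pool.Agent.Lib.MP_b71113_an.LI.Hart

/-! Iterated subtraction of Taylor polynomials, and a directional contour shift. -/

namespace Pool.Agent.Lib.MP_b71113_an.LI

open Set Filter Topology Complex Metric Function MeasureTheory

variable {n : ℕ}

/-- `∏_{k ∈ l} (1 - T_k)` -/
noncomputable def op (p : Fin n → ℂ) (N : ℕ) :
    List (Fin n) → ((Fin n → ℂ) → ℂ) → (Fin n → ℂ) → ℂ
  | [], u => u
  | k :: l, u => fun z => op p N l u z - tay k (p k) N (op p N l u) z

/-- stability under moving a coordinate into the disc -/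
def Stab (p : Fin n → ℂ) (r : ℝ) (l : List (Fin n)) (O : Set (Fin n → ℂ)) : Prop :=
  ∀ k ∈ l, ∀ z ∈ O, ∀ ζ ∈ closedBall (p k) r, update z k ζ ∈ O

variable {p : Fin n → ℂ} {r L M R : ℝ} {N : ℕ} {l : List (Fin n)} {k : Fin n}
  {O K K' : Set (Fin n → ℂ)} {u : (Fin n → ℂ) → ℂ}

theorem Stab.tail (h : Stab p r (k :: l) O) : Stab p r l O :=
  fun j hj => h j (List.mem_cons_of_mem _ hj)

theorem op_diff (hr : 0 < r) (hO : IsOpen O) (hu : DifferentiableOn ℂ u O) (hs : Stab p r l O) :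
    DifferentiableOn ℂ (op p N l u) O := by
  induction l with
  | nil => exact hu
  | cons k l ih =>
    exact (ih hs.tail).sub ((tay_diff hO (ih hs.tail) N).mono fun z hz =>
      hs k List.mem_cons_self z hz _ (mem_closedBall_self hr.le))

theorem op_sum {ι : Type} [Fintype ι] {w : ι → (Fin n → ℂ) → ℂ} (hr : 0 < r) (hO : IsOpen O)
    (hw : ∀ i, DifferentiableOn ℂ (w i) O) (h : ∀ z ∈ O, u z = ∑ i, w i z) (hs : Stab p r l O) :
    ∀ z ∈ O, op p N l u z = ∑ i, op p N l (w i) z := by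
  induction l with
  | nil => exact h
  | cons k l ih =>
    intro z hz
    simp only [op]
    rw [ih hs.tail z hz, tay_sum hO (fun i => op_diff hr hO (hw i) hs.tail) (ih hs.tail)
      (hs k List.mem_cons_self z hz _ (mem_closedBall_self hr.le)), Finset.sum_sub_distrib]

theorem step_bound (hr : 0 < r) (hrL : r ≤ L) (hu : DifferentiableOn ℂ u O) (hK : K ⊆ O)
    (hs : Stab p r (k :: l) K) (hM : ∀ z ∈ K, ‖u z‖ ≤ M) {z : Fin n → ℂ} (hz : z ∈ K)
    (hL : ‖z k - p k‖ ≤ L) : ‖u z - tay k (p k) N u z‖ ≤ M * (2 * (1 + L / r) ^ N) := by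
  have h1 := tay_bound hu hr hrL (fun ζ hζ => ⟨hK (hs k List.mem_cons_self z hz ζ hζ),
    hM _ (hs k List.mem_cons_self z hz ζ hζ)⟩) hL N
  have h2 : 1 ≤ (1 + L / r) ^ N :=
    one_le_pow₀ (le_add_of_nonneg_right (div_nonneg (hr.le.trans hrL) hr.le))
  have h3 := hM z hz
  have h4 := (norm_nonneg _).trans h3
  nlinarith [norm_sub_le (u z) (tay k (p k) N u z)]

theorem op_bound (hr : 0 < r) (hrL : r ≤ L) (hO : IsOpen O) (hu : DifferentiableOn ℂ u O)
    (hK : K ⊆ O) (hM : ∀ z ∈ K, ‖u z‖ ≤ M) (hs : Stab p r l O) (hs' : Stab p r l K)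
    (hL : ∀ k ∈ l, ∀ z ∈ K, ‖z k - p k‖ ≤ L) :
    ∀ z ∈ K, ‖op p N l u z‖ ≤ M * (2 * (1 + L / r) ^ N) ^ l.length := by
  induction l with
  | nil => simpa [op] using hM
  | cons k l ih =>
    intro z hz
    rw [List.length_cons, pow_succ, ← mul_assoc]
    exact step_bound hr hrL (op_diff hr hO hu hs.tail) hK hs'
      (ih hs.tail hs'.tail fun j hj => hL j (List.mem_cons_of_mem _ hj)) hz
      (hL k List.mem_cons_self z hz)

theorem op_small {j : Fin n} (hr : 0 < r) (hrL : r ≤ L) (hR : 2 * L ≤ R) (hO : IsOpen O)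
    (hu : DifferentiableOn ℂ u O) (hK : K ⊆ O) (hK' : K' ⊆ O) (hM : ∀ z ∈ K', ‖u z‖ ≤ M)
    (hKK : ∀ z ∈ K, ∀ ζ ∈ closedBall (p j) R, update z j ζ ∈ K') (hs : Stab p r l O)
    (hs' : Stab p r l K) (hL : ∀ k ∈ l, ∀ z ∈ K, ‖z k - p k‖ ≤ L)
    (hs'' : ∀ k ∈ l, k ≠ j → ∀ z ∈ K', ‖z k - p k‖ ≤ L ∧
      ∀ ζ ∈ closedBall (p k) r, update z k ζ ∈ K') (hn : l.Nodup) (hj : j ∈ l) :
    ∀ z ∈ K, ‖op p N l u z‖ ≤ 2 * M * (L / R) ^ N * (2 * (1 + L / r) ^ N) ^ l.length := by
  induction l with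
  | nil => simp at hj
  | cons k l ih =>
    intro z hz
    have hn' := List.nodup_cons.1 hn
    rw [List.length_cons, pow_succ, ← mul_assoc]
    by_cases hk : j = k
    · subst hk
      have hne : ∀ i ∈ l, i ≠ j := fun i hi h => hn'.1 (h ▸ hi)
      have h1 := op_bound (N := N) hr hrL hO hu hK' hM hs.tail
        (fun i hi w hw => (hs'' i (List.mem_cons_of_mem _ hi) (hne i hi) w hw).2)
        fun i hi w hw => (hs'' i (List.mem_cons_of_mem _ hi) (hne i hi) w hw).1
      have h2 := rem_bound (op_diff (N := N) hr hO hu hs.tail) (hr.trans_le hrL) hR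
        (fun ζ hζ => ⟨hK' (hKK z hz ζ hζ), h1 _ (hKK z hz ζ hζ)⟩) (hL j hj z hz) N
      have h3 : 1 ≤ (1 + L / r) ^ N :=
        one_le_pow₀ (le_add_of_nonneg_right (div_nonneg (hr.le.trans hrL) hr.le))
      have h4 := (norm_nonneg _).trans h2
      refine h2.trans ?_
      nlinarith
    · exact step_bound hr hrL (op_diff hr hO hu hs.tail) hK hs'
        (ih hs.tail hs'.tail (fun i hi => hL i (List.mem_cons_of_mem _ hi))
          (fun i hi => hs'' i (List.mem_cons_of_mem _ hi)) hn'.2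
          ((List.mem_cons.1 hj).resolve_left hk)) hz (hL k List.mem_cons_self z hz)

/-- The contour shift estimate, with the bound needed only where `∂_v χ ≠ 0`. -/
theorem shift' {χ : (Fin n → ℝ) → ℝ} (hχ : ContDiff ℝ 1 χ) (hc : HasCompactSupport χ)
    {G : (Fin n → ℂ) → ℂ} {O : Set (Fin n → ℂ)} (hO : IsOpen O) (hG : DifferentiableOn ℂ G O)
    (y v : Fin n → ℝ) (hin : ∀ x ∈ tsupport χ, ∀ s ∈ Icc (0 : ℝ) 1, pt x (y + s • v) ∈ O)
    {B : ℝ} (hB : ∀ x, fderiv ℝ χ x v ≠ 0 → ∀ s ∈ Icc (0 : ℝ) 1, ‖G (pt x (y + s • v))‖ ≤ B) :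
    ‖(∫ x, (χ x : ℂ) * G (pt x (y + v))) - ∫ x, (χ x : ℂ) * G (pt x y)‖ ≤
      B * ∫ x, |fderiv ℝ χ x v| := by
  have hχc : Continuous fun x => (χ x : ℂ) := continuous_ofReal.comp hχ.continuous
  have z0 : ∀ x, x ∉ tsupport χ → (χ x : ℂ) = 0 := fun x hx => by
    simp [image_eq_zero_of_notMem_tsupport hx]
  have hint : ∀ s ∈ Icc (0 : ℝ) 1, Integrable fun x => (χ x : ℂ) * G (pt x (y + s • v)) := by
    intro s hs
    refine integrable_cut hc hχc z0 ?_
    have hpt : Continuous fun x : Fin n → ℝ => pt x (y + s • v) :=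
      continuous_pt.comp (continuous_id.prodMk continuous_const)
    exact hG.continuousOn.comp hpt.continuousOn fun x hx => hin x hx s hs
  set D : ℝ → (Fin n → ℝ) → ℂ := fun s x =>
    (χ x : ℂ) * fderiv ℂ G (pt x (y + s • v)) (I • ofR v) with hD
  have hDc : ContinuousOn (Function.uncurry D) (Icc 0 1 ×ˢ tsupport χ) := by
    have hpt : Continuous fun p : ℝ × (Fin n → ℝ) => pt p.2 (y + p.1 • v) :=
      continuous_pt.comp (continuous_snd.prodMk (by fun_prop))
    have h1 := (differentiableOn_fderiv_of_isOpen hO hG).continuousOn.comp hpt.continuousOn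
      (s := Icc 0 1 ×ˢ tsupport χ) fun p hp => hin p.2 hp.2 p.1 hp.1
    exact (hχc.comp continuous_snd).continuousOn.mul (h1.clm_apply continuousOn_const)
  have hDi : Integrable (Function.uncurry D)
      ((volume.restrict (uIoc (0 : ℝ) 1)).prod (volume : Measure (Fin n → ℝ))) := by
    have h1 : IntegrableOn (Function.uncurry D) (Icc 0 1 ×ˢ tsupport χ)
        ((volume : Measure ℝ).prod (volume : Measure (Fin n → ℝ))) :=
      hDc.integrableOn_compact (isCompact_Icc.prod hc)
    have h2 : IntegrableOn (Function.uncurry D) (uIoc (0 : ℝ) 1 ×ˢ univ)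
        ((volume : Measure ℝ).prod (volume : Measure (Fin n → ℝ))) := by
      refine h1.of_forall_sdiff_eq_zero (measurableSet_uIoc.prod MeasurableSet.univ) ?_
      intro p hp
      have h3 : p.2 ∉ tsupport χ := fun h => hp.2 ⟨by
        have := uIoc_subset_uIcc hp.1.1
        rwa [uIcc_of_le zero_le_one] at this, h⟩
      simp [Function.uncurry, hD, z0 _ h3]
    rw [IntegrableOn, ← Measure.prod_restrict, Measure.restrict_univ] at h2
    exact h2
  have hftc : ∀ x, (χ x : ℂ) * G (pt x (y + v)) - (χ x : ℂ) * G (pt x y) =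
      ∫ s in (0 : ℝ)..1, D s x := by
    intro x
    by_cases hx : x ∈ tsupport χ
    · have h1 : ∀ s ∈ uIcc (0 : ℝ) 1, HasDerivAt (fun t : ℝ => (χ x : ℂ) * G (pt x (y + t • v)))
          (D s x) s := by
        intro s hs
        rw [uIcc_of_le zero_le_one] at hs
        have hd := hG.differentiableAt (hO.mem_nhds (hin x hx s hs))
        rw [pt_add_smul_right] at hd
        have := (hasDerivAt_line hd).const_mul (χ x : ℂ)
        simpa only [hD, pt_add_smul_right] using this
      have h2 : IntervalIntegrable (fun s => D s x) volume 0 1 := by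
        refine ContinuousOn.intervalIntegrable ?_
        rw [uIcc_of_le zero_le_one]
        have h3 : Continuous fun s : ℝ => (s, x) := by fun_prop
        exact hDc.comp h3.continuousOn fun s hs => ⟨hs, hx⟩
      rw [intervalIntegral.integral_eq_sub_of_hasDerivAt h1 h2]
      simp
    · simp [hD, z0 x hx]
  have h1 := hint 1 ⟨zero_le_one, le_rfl⟩
  have h0 := hint 0 ⟨le_rfl, zero_le_one⟩
  simp only [one_smul, zero_smul, add_zero] at h1 h0
  rw [← integral_sub h1 h0]
  simp_rw [hftc]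
  rw [← intervalIntegral_integral_swap hDi]
  have hbound : ∀ s ∈ uIoc (0 : ℝ) 1, ‖∫ x, D s x‖ ≤ B * ∫ x, |fderiv ℝ χ x v| := by
    intro s hs
    have hs' : s ∈ Icc (0 : ℝ) 1 := by
      have := uIoc_subset_uIcc hs
      rwa [uIcc_of_le zero_le_one] at this
    have e1 : ∫ x, D s x = I * ∫ x, (χ x : ℂ) * fderiv ℂ G (pt x (y + s • v)) (ofR v) := by
      rw [← integral_const_mul]
      congr 1
      funext x
      simp only [hD, map_smul, smul_eq_mul]
      ring
    rw [e1, parts hχ hc hO hG _ v fun x hx => hin x hx s hs', norm_mul, norm_I, one_mul, norm_neg,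
      ← integral_const_mul]
    refine norm_integral_le_of_norm_le ?_ (Eventually.of_forall fun x => ?_)
    · refine Integrable.const_mul ?_ _
      have h3 : Continuous fun x => fderiv ℝ χ x v :=
        (hχ.continuous_fderiv one_ne_zero).clm_apply continuous_const
      exact (h3.integrable_of_hasCompactSupport (hc.fderiv_apply ℝ v)).abs
    · by_cases hx : fderiv ℝ χ x v = 0
      · simp [hx]
      · rw [norm_mul, norm_real, Real.norm_eq_abs, mul_comm]
        exact mul_le_mul_of_nonneg_right (hB x hx s hs') (abs_nonneg _)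
  simpa using intervalIntegral.norm_integral_le_of_norm_le_const hbound

end Pool.Agent.Lib.MP_b71113_an.LI
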