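import Pool.Agent.Lib.MP_b71113_an.LI.Est

/-! Peak functions and cut-off functions. -/

namespace Pool.Agent.Lib.MP_b71113_an.LI

open Set Filter Topology Complex Metric Function MeasureTheory
open scoped Real

variable {n : ℕ}

theorem peak_fun {φ : (Fin n → ℂ) → ℂ} (hφ : Differentiable ℂ φ) {a : Fin n → ℝ} {M : ℝ}
    (hM0 : 0 ≤ M) (hlt : M < ‖φ (ofR a)‖) (c : Fin n → ℝ) :
    ∃ (Λ : (Fin n → ℂ) → ℂ) (q : (Fin n → ℝ) → ℝ), Differentiable ℂ Λ ∧ (∀ x, Λ (ofR x) = q x) ∧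
      q a = 0 ∧ (∀ x, x ≠ a → q x < 0) ∧ ∀ w, ‖φ w‖ ≤ M → ‖φ (star w)‖ ≤ M →
        (∀ j, |(w j).im| ≤ c j) → (Λ w).re ≤ -1 := by
  set b := φ (ofR a) with hb
  have hb0 : 0 < ‖b‖ := hM0.trans_lt hlt
  have hb0' : b ≠ 0 := norm_pos_iff.1 hb0
  obtain ⟨k, hk⟩ := exists_pow_lt_of_lt_one (show (0 : ℝ) < 1 / 4 by norm_num)
    ((div_lt_one hb0).2 hlt)
  set φ₂ : (Fin n → ℂ) → ℂ := fun z => (φ z / b) ^ k with hφ₂
  have hφ₂d : Differentiable ℂ φ₂ := by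
    simp only [hφ₂, div_eq_mul_inv]
    exact (hφ.mul_const b⁻¹).pow k
  have hsmall : ∀ w, ‖φ w‖ ≤ M → ‖φ₂ w‖ ≤ 1 / 4 := fun w hw => by
    rw [hφ₂, norm_pow, norm_div]
    refine le_trans ?_ hk.le
    gcongr
  set Φ : (Fin n → ℂ) → ℂ := fun z => (φ₂ z + star (φ₂ (star z))) / 2 with hΦ
  have hΦd : Differentiable ℂ Φ := by
    simp only [hΦ, div_eq_mul_inv]
    refine Differentiable.mul_const (hφ₂d.add fun z => ?_) _
    have := (hφ₂d (star z)).star_star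
    rwa [star_star] at this
  have hΦr : ∀ x, Φ (ofR x) = ((φ₂ (ofR x)).re : ℂ) := by
    intro x
    simp only [hΦ, star_ofR]
    apply Complex.ext <;> simp
  set κ : ℝ := 2 * (∑ j, c j ^ 2 + 1) with hκ
  have hκ0 : 0 ≤ κ := by positivity
  refine ⟨fun z => -(κ * (Φ z - 1) ^ 2) - ∑ j, (z j - a j) ^ 2,
    fun x => -(κ * ((φ₂ (ofR x)).re - 1) ^ 2) - ∑ j, (x j - a j) ^ 2,
    (((hΦd.sub_const 1).pow 2).const_mul _).neg.sub (by fun_prop), fun x => ?_,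
    by simp [hφ₂, ← hb, hb0'], fun x hx => ?_, fun w h1 h2 hw => ?_⟩
  · simp only [hΦr]
    push_cast
    simp [ofR]
  · obtain ⟨j, hj⟩ := Function.ne_iff.1 hx
    have h3 : 0 < ∑ j, (x j - a j) ^ 2 :=
      Finset.sum_pos' (fun i _ => sq_nonneg _)
        ⟨j, Finset.mem_univ _, sq_pos_of_ne_zero (sub_ne_zero.2 hj)⟩
    have h4 : 0 ≤ κ * ((φ₂ (ofR x)).re - 1) ^ 2 := by positivity
    linarith
  · have e1 : ‖Φ w‖ ≤ 1 / 4 := by
      have h3 := hsmall w h1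
      have h4 := hsmall _ h2
      have h5 := norm_add_le (φ₂ w) (star (φ₂ (star w)))
      rw [norm_star] at h5
      simp only [hΦ, norm_div, Complex.norm_ofNat]
      linarith
    have e2 := re_sq_ge e1
    have e3 : -∑ j, c j ^ 2 ≤ (∑ j, (w j - a j) ^ 2).re := by
      rw [re_sum, ← Finset.sum_neg_distrib]
      refine Finset.sum_le_sum fun j _ => ?_
      have h3 := hw j
      have h4 : (w j).im ^ 2 ≤ c j ^ 2 := sq_le_sq' (abs_le.1 h3).1 (abs_le.1 h3).2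
      simp only [sq, mul_re, sub_re, ofReal_re, sub_im, ofReal_im, sub_zero] at h4 ⊢
      nlinarith [mul_self_nonneg ((w j).re - a j)]
    rw [sub_re, neg_re, re_ofReal_mul]
    have e4 := mul_le_mul_of_nonneg_left e2 hκ0
    have e5 : κ * (1 / 2) = ∑ j, c j ^ 2 + 1 := by rw [hκ]; ring
    linarith

theorem fd_zero {χ : (Fin n → ℝ) → ℝ} {x v : Fin n → ℝ} (hχ : DifferentiableAt ℝ χ x)
    (h : ∀ᶠ t in 𝓝 (0 : ℝ), χ (x + t • v) = χ x) : fderiv ℝ χ x v = 0 := by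
  rw [← hχ.lineDeriv_eq_fderiv, lineDeriv, EventuallyEq.deriv_eq h, deriv_const]

theorem thick_ev {K : Set (Fin n → ℝ)} (hK : IsCompact K) {c : Fin n → ℝ} (hc : ∀ j, 0 ≤ c j)
    {V : Set (Fin n → ℂ)} (hV : IsOpen V) (h : tube K c ⊆ V) :
    ∀ᶠ δ in 𝓝[>] (0 : ℝ), tube K (fun j => c j + δ) ⊆ V := by
  obtain ⟨δ, hδ, h1⟩ := tube_thick hK hc hV h
  filter_upwards [Ioc_mem_nhdsGT hδ] with t ht
  exact (tube_mono Subset.rfl fun j => by linarith [ht.2]).trans h1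

theorem re_cos (t : ℝ) (w : ℂ) (a : ℝ) :
    (cos (t * (w - a))).re = Real.cos (t * (w.re - a)) * Real.cosh (t * w.im) := by
  have e : (t : ℂ) * (w - a) = (t * (w.re - a) : ℝ) + (t * w.im : ℝ) * I := by
    apply Complex.ext <;> simp
  rw [e, cos_add_mul_I, ← ofReal_cos, ← ofReal_cosh, ← ofReal_sin, ← ofReal_sinh]
  simp only [← ofReal_mul, sub_re, ofReal_re, mul_re, I_re, I_im, ofReal_im]
  ring

theorem re_cos_le (t : ℝ) {c : ℝ} {w : ℂ} (hw : |w.im| ≤ c) (a : ℝ) :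
    (cos (t * (w - a))).re ≤ Real.cosh (t * c) := by
  rw [re_cos]
  refine (mul_le_of_le_one_left (Real.cosh_pos _).le (Real.cos_le_one _)).trans
    (Real.cosh_le_cosh.2 ?_)
  rw [abs_mul, abs_mul]
  exact mul_le_mul_of_nonneg_left (hw.trans (le_abs_self c)) (abs_nonneg t)

theorem re_cos_nonpos {ρ a : ℝ} (hρ : 0 < ρ) {w : ℂ} (h1 : ρ / 2 ≤ |w.re - a|)
    (h2 : |w.re - a| ≤ ρ) : (cos ((π / ρ : ℝ) * (w - a))).re ≤ 0 := by
  rw [re_cos, ← Real.cos_abs, abs_mul, abs_of_pos (div_pos Real.pi_pos hρ)]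
  refine mul_nonpos_of_nonpos_of_nonneg (Real.cos_nonpos_of_pi_div_two_le_of_le ?_ ?_)
    (Real.cosh_pos _).le
  · rw [div_mul_eq_mul_div, le_div_iff₀ hρ]; nlinarith [Real.pi_pos]
  · rw [div_mul_eq_mul_div, div_le_iff₀ hρ]; nlinarith [Real.pi_pos]

theorem cos_lt {ρ s : ℝ} (hρ : 0 < ρ) (h1 : s ≠ 0) (h2 : |s| ≤ ρ) : Real.cos (π / ρ * s) < 1 := by
  rw [← Real.cos_abs, abs_mul, abs_of_pos (div_pos Real.pi_pos hρ), ← Real.cos_zero]
  refine Real.cos_lt_cos_of_nonneg_of_le_pi le_rfl ?_ (by positivity)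
  rw [div_mul_eq_mul_div, div_le_iff₀ hρ]; nlinarith [Real.pi_pos]

/-- the projection to the slice through `a` -/
def prj {R : Type} (S : Finset (Fin n)) (a x : Fin n → R) : Fin n → R :=
  fun j => if j ∈ S then a j else x j

theorem cutoff (S : Finset (Fin n)) (a : Fin n → ℝ) {χ₀ : (Fin n → ℝ) → ℝ} (h0 : ContDiff ℝ 1 χ₀)
    {U : Set (Fin n → ℝ)} (hU : IsOpen U) (hU1 : ∀ x ∈ U, χ₀ x = 1) (ha : a ∈ U) {ρ : ℝ}
    (hρ : 0 < ρ) : ∃ χ : (Fin n → ℝ) → ℝ, ContDiff ℝ 1 χ ∧ χ a = 1 ∧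
      (∀ x, χ x ≠ 0 → (∀ k ∈ S, |x k - a k| ≤ ρ) ∧ prj S a x ∈ tsupport χ₀) ∧
      (∀ k ∈ S, ∀ x v, (∀ j, j ≠ k → v j = 0) → fderiv ℝ χ x v ≠ 0 → ρ / 2 ≤ |x k - a k|) ∧
      ∀ x v, (∀ j ∈ S, v j = 0) → fderiv ℝ χ x v ≠ 0 → prj S a x ∉ U := by
  obtain ⟨β, h1, -, h2, h3, -⟩ := exists_bump (isCompact_closedBall (0 : ℝ) (ρ / 2)) isOpen_ball
    (closedBall_subset_ball (half_lt_self hρ))
  have hβ : ContDiff ℝ 1 β := h1.of_le (by exact_mod_cast le_top)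
  have hP : ContDiff ℝ 1 (prj S a) := contDiff_pi.2 fun j => by
    unfold prj; split_ifs <;> fun_prop
  have hχ : ContDiff ℝ 1 fun x => χ₀ (prj S a x) * ∏ k ∈ S, β (x k - a k) :=
    (h0.comp hP).mul (contDiff_prod fun k _ => hβ.comp (by fun_prop))
  have hd := hχ.differentiable one_ne_zero
  refine ⟨_, hχ, ?_, fun x hx => ⟨fun k hk => ?_, subset_tsupport _ (left_ne_zero_of_mul hx)⟩,
    fun k hk x v hv h => not_lt.1 fun hlt => h (fd_zero (hd x) ?_),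
    fun x v hv h hx => h (fd_zero (hd x) ?_)⟩
  · rw [show prj S a a = a by funext j; simp [prj], hU1 a ha, one_mul]
    exact Finset.prod_eq_one fun k _ => h3 _ (by simp; positivity)
  · have := h2 (subset_tsupport _ (Finset.prod_ne_zero_iff.1 (right_ne_zero_of_mul hx) k hk))
    exact (mem_ball_zero_iff.1 this).le
  · have hc : Continuous fun t : ℝ => |(x + t • v) k - a k| := by fun_prop
    filter_upwards [hc.continuousAt.eventually (gt_mem_nhds (by simpa using hlt))] with t ht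
    congr 1
    · congr 1
      funext j
      unfold prj
      split_ifs with hj
      · rfl
      · simp [hv j fun e => hj (e ▸ hk)]
    · refine Finset.prod_congr rfl fun j _ => ?_
      by_cases hj : j = k
      · subst hj
        rw [h3 _ (mem_closedBall_zero_iff.2 ht.le), h3 _ (mem_closedBall_zero_iff.2 hlt.le)]
      · simp [hv j hj]
  · have hc : Continuous fun t : ℝ => prj S a (x + t • v) := hP.continuous.comp (by fun_prop)
    filter_upwards [hc.continuousAt.eventually (hU.mem_nhds (by simpa using hx))] with t ht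
    rw [hU1 _ ht, hU1 _ hx]
    exact congrArg _ (Finset.prod_congr rfl fun j hj => by simp [hv j hj])

end Pool.Agent.Lib.MP_b71113_an.LI
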